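import Mathlib

namespace Pool.Agent.P.MP_894816_co

/-- A configuration of `n` bins with two places each: the number on the ball in each place
(bins and numbers are counted from `0`). -/
abbrev Config (n : ℕ) : Type := Fin n × Fin 2 → Fin n

/-- `c'` arises from `c` by exchanging a ball of some bin with a ball of the next bin. -/
def Swap {n : ℕ} (c c' : Config n) : Prop :=
  ∃ (i j : Fin n) (a b : Fin 2), (j : ℕ) = i + 1 ∧ c' = c ∘ Equiv.swap (i, a) (j, b)

/-- Some sequence of exactly `k` swaps takes the reversed configuration to the sorted one. -/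
def SortsIn (n k : ℕ) : Prop :=
  ∃ c : ℕ → Config n, (c 0 = fun p => p.1.rev) ∧ (c k = fun p => p.1) ∧
    ∀ t < k, Swap (c t) (c (t + 1))

end Pool.Agent.P.MP_894816_co
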