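import Pool.Agent.P.MP_894816_co.Words

namespace Pool.Agent.P.MP_894816_co

open Equiv

def Rel {n : ℕ} (g : Perm ℕ) (cf : Config n) (fl : ℕ → ℕ) : Prop :=
  ∀ (i : Fin n) (a : Fin 2), (cf (i, a) : ℕ) = n - 1 - (g (2 * i + 1 + (a + fl i) % 2) - 1) / 2

lemma bridge_aux {n : ℕ} (w : List ℕ) : ∀ (g : Perm ℕ) (cf : Config n) (fl : ℕ → ℕ),
    Inb (2 * n) w → Rel g cf fl → ∃ c : ℕ → Config n, c 0 = cf ∧
      (∀ t < cost w, Swap (c t) (c (t + 1))) ∧ ∃ fl', Rel (g * pr w) (c (cost w)) fl' := by
  induction w with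
  | nil => intro g cf fl _ h; exact ⟨fun _ => cf, rfl, by simp, fl, by simpa using h⟩
  | cons k w ih =>
    intro g cf fl hi h
    obtain ⟨hk, hi'⟩ := inb_cons.1 hi
    by_cases hp : k % 2 = 0
    · have hi0 : k / 2 - 1 < n := by omega
      have hj0 : k / 2 < n := by omega
      have ha0 : (fl (k / 2 - 1) + 1) % 2 < 2 := by omega
      have hb0 : fl (k / 2) % 2 < 2 := by omega
      have hr : Rel (g * s k) (cf ∘ swap ((⟨_, hi0⟩, ⟨_, ha0⟩) : Fin n × Fin 2)
          (⟨_, hj0⟩, ⟨_, hb0⟩)) fl := by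
        intro i a
        rw [Function.comp_apply, swap_apply_def, Perm.mul_apply, s_apply]
        have ha := a.2
        simp only [Prod.mk.injEq, Fin.ext_iff]
        by_cases c1 : (i : ℕ) = k / 2 - 1 ∧ (a : ℕ) = (fl (k / 2 - 1) + 1) % 2
        · rw [if_pos c1, h, if_pos (by rw [c1.1, c1.2]; omega)]
          simp only
          rw [show 2 * (k / 2) + 1 + (fl (k / 2) % 2 + fl (k / 2)) % 2 = k + 1 by omega]
        · rw [if_neg c1]
          by_cases c2 : (i : ℕ) = k / 2 ∧ (a : ℕ) = fl (k / 2) % 2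
          · rw [if_pos c2, h, if_neg (by rw [c2.1, c2.2]; omega),
              if_pos (by rw [c2.1, c2.2]; omega)]
            simp only
            rw [show 2 * (k / 2 - 1) + 1 + ((fl (k / 2 - 1) + 1) % 2 + fl (k / 2 - 1)) % 2 = k by
              omega]
          · rw [if_neg c2, h, if_neg, if_neg]
            · intro e
              have e1 : (i : ℕ) = k / 2 := by omega
              rw [e1] at e c2; omega
            · intro e
              have e1 : (i : ℕ) = k / 2 - 1 := by omega
              rw [e1] at e c1; omega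
      obtain ⟨c, h0, h1, fl', h2⟩ := ih _ _ _ hi' hr
      refine ⟨fun t => Nat.casesOn t cf c, rfl, ?_, fl', ?_⟩
      · intro t ht
        cases t with
        | zero => exact ⟨_, _, _, _, by simp only; omega, h0⟩
        | succ t => exact h1 t (by rw [cost_cons, if_pos hp] at ht; omega)
      · rw [cost_cons, if_pos hp, pr_cons, ← mul_assoc]; exact h2
    · have hr : Rel (g * s k) cf (fun j => if j = k / 2 then fl j + 1 else fl j) := by
        intro i a
        rw [h, Perm.mul_apply, s_apply]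
        have ha := a.2
        congr 4
        simp only
        split_ifs <;> omega
      obtain ⟨c, h0, h1, fl', h2⟩ := ih _ _ _ hi' hr
      refine ⟨c, h0, ?_, fl', ?_⟩
      · intro t ht; exact h1 t (by rw [cost_cons, if_neg hp] at ht; omega)
      · rw [cost_cons, if_neg hp, pr_cons, ← mul_assoc]; exact h2

lemma sorts_of_good {n c : ℕ} (h : Good (2 * n) c) : ∃ k ≤ c, SortsIn n k := by
  obtain ⟨w, h1, h2, h3⟩ := h
  obtain ⟨cs, h0, hs, fl, hr⟩ := bridge_aux (n := n) w 1 (fun p => p.1.rev) (fun _ => 0) h1 (by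
    intro i a
    have := a.2
    simp only [Fin.val_rev, Perm.one_apply]; omega)
  refine ⟨cost w, h3, cs, h0, ?_, hs⟩
  funext ⟨i, a⟩
  apply Fin.ext
  rw [hr i a, one_mul, h2, rv_apply]
  have := i.2
  split_ifs <;> simp only <;> omega

end Pool.Agent.P.MP_894816_co
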