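import Pool.Agent.P.MP_894816_co.Defs

namespace Pool.Agent.P.MP_894816_co

open Equiv Finset

variable {n : ℕ}

def dd (i j : Fin n) : ℕ := if i < j then 2 else if i = j then 1 else 0

def potD (c : Config n) : ℕ := ∑ p, ∑ q, if c p < c q then dd p.1 q.1 else 0

def Start (c : Config n) (j : Fin n) : Prop :=
  (∀ a, c (j.rev, a) = j) ∧ ∀ p : Fin n × Fin 2, p.1 < j.rev → j < c p

open Classical in
noncomputable def ee (c : Config n) (j : Fin n) : ℕ :=
  if Start c j then 0 else if ∃ i, ∀ a, c (i, a) = j then 2 else 1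

noncomputable def potE (c : Config n) : ℕ := ∑ j, ee c j

def Two (c : Config n) : Prop := ∀ p q r, c p = c q → c q = c r → p = q ∨ q = r ∨ p = r

lemma two_swap {c c' : Config n} (h : Swap c c') (h2 : Two c) : Two c' := by
  obtain ⟨i, j, a, b, -, rfl⟩ := h
  intro p q r e1 e2
  simpa using h2 _ _ _ e1 e2

def ind (P : Prop) [Decidable P] : ℕ := if P then 1 else 0

lemma sum_pt (P Q : Fin n × Fin 2) (m : ℕ) :
    (∑ p : Fin n × Fin 2, ∑ q : Fin n × Fin 2, if p = P ∧ q = Q then m else 0) = m := by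
  rw [Finset.sum_eq_single P, Finset.sum_eq_single Q] <;> simp +contextual

lemma potD_step (c : Config n) (i j : Fin n) (a b : Fin 2) (hij : (j : ℕ) = i + 1) :
    potD (c ∘ swap (i, a) (j, b)) ≤ potD c + (2 + ind (c (i, a + 1) < c (i, a)) +
      ind (c (j, b) < c (i, a + 1)) + ind (c (j, b + 1) < c (i, a)) +
      ind (c (j, b) < c (j, b + 1))) := by
  have e : potD (c ∘ swap (i, a) (j, b)) = ∑ p, ∑ q, if c p < c q then
      dd (swap (i, a) (j, b) p).1 (swap (i, a) (j, b) q).1 else 0 := by
    unfold potD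
    rw [← Equiv.sum_comp (swap (i, a) (j, b))]
    refine Finset.sum_congr rfl fun p _ => ?_
    rw [← Equiv.sum_comp (swap (i, a) (j, b))]
    simp
  have e2 := sum_pt (j, b) (i, a) 2
  generalize hm : (∑ p : Fin n × Fin 2, ∑ q : Fin n × Fin 2,
    if p = (j, b) ∧ q = (i, a) then 2 else 0) = m2 at e2
  suffices potD (c ∘ swap (i, a) (j, b)) ≤ potD c + (m2 + ind (c (i, a + 1) < c (i, a)) +
      ind (c (j, b) < c (i, a + 1)) + ind (c (j, b + 1) < c (i, a)) +
      ind (c (j, b) < c (j, b + 1))) by omega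
  rw [e, ← hm, ← sum_pt (i, a + 1) (i, a) (ind (c (i, a + 1) < c (i, a))),
    ← sum_pt (j, b) (i, a + 1) (ind (c (j, b) < c (i, a + 1))),
    ← sum_pt (j, b + 1) (i, a) (ind (c (j, b + 1) < c (i, a))),
    ← sum_pt (j, b) (j, b + 1) (ind (c (j, b) < c (j, b + 1)))]
  unfold potD
  simp only [← Finset.sum_add_distrib]
  refine Finset.sum_le_sum fun p _ => Finset.sum_le_sum fun q _ => ?_
  by_cases hc : c p < c q
  swap
  · simp [hc]
  rw [if_pos hc, if_pos hc]
  have hne : p ≠ q := by rintro rfl; exact lt_irrefl _ hc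
  have key : ∀ (x : Fin n) (u v : Fin 2), (x, v) ≠ (x, u) → v = u + 1 := by
    intro x u v h
    have : v ≠ u := fun e => h (by rw [e])
    clear h; revert u v; decide
  by_cases p1 : p = (i, a)
  · subst p1
    rw [swap_apply_left]
    by_cases q1 : q = (j, b)
    · subst q1; rw [swap_apply_right]; unfold dd; simp only [Fin.lt_def, Fin.ext_iff]
      split_ifs <;> omega
    · rw [swap_apply_of_ne_of_ne hne.symm q1]; unfold dd; simp only [Fin.lt_def, Fin.ext_iff]
      split_ifs <;> omega
  by_cases p2 : p = (j, b)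
  · subst p2
    rw [swap_apply_right]
    by_cases q1 : q = (i, a)
    · subst q1; rw [swap_apply_left]; simp only [and_self, if_true]; unfold dd
      split_ifs <;> omega
    rw [swap_apply_of_ne_of_ne q1 hne.symm]
    obtain ⟨q, v⟩ := q
    by_cases q2 : q = i
    · subst q2
      obtain rfl := key _ _ _ q1
      simp only [and_self, if_true, ind, if_pos hc]; unfold dd
      simp only [Fin.lt_def, Fin.ext_iff]; split_ifs <;> omega
    by_cases q3 : q = j
    · subst q3
      obtain rfl := key _ _ _ hne.symm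
      simp only [and_self, if_true, ind, if_pos hc]; unfold dd
      simp only [Fin.lt_def, Fin.ext_iff]; split_ifs <;> omega
    · have : dd i q = dd j q := by
        unfold dd; simp only [Fin.lt_def, Fin.ext_iff] at q2 q3 ⊢; split_ifs <;> omega
      simp only [this]; omega
  rw [swap_apply_of_ne_of_ne p1 p2]
  by_cases q1 : q = (i, a)
  · subst q1
    rw [swap_apply_left]
    obtain ⟨p, v⟩ := p
    by_cases q2 : p = i
    · subst q2
      obtain rfl := key _ _ _ p1
      simp only [and_self, if_true, ind, if_pos hc]; unfold dd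
      simp only [Fin.lt_def, Fin.ext_iff]; split_ifs <;> omega
    by_cases q3 : p = j
    · subst q3
      obtain rfl := key _ _ _ p2
      simp only [and_self, if_true, ind, if_pos hc]; unfold dd
      simp only [Fin.lt_def, Fin.ext_iff]; split_ifs <;> omega
    · have : dd p j = dd p i := by
        unfold dd; simp only [Fin.lt_def, Fin.ext_iff] at q2 q3 ⊢; split_ifs <;> omega
      simp only [this]; omega
  by_cases q2 : q = (j, b)
  · subst q2
    rw [swap_apply_right]
    have : dd p.1 i ≤ dd p.1 j := by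
      unfold dd; simp only [Fin.lt_def, Fin.ext_iff]; split_ifs <;> omega
    simp only; omega
  · rw [swap_apply_of_ne_of_ne q1 q2]; omega

lemma ee_step {c : Config n} (h2 : Two c) (i j : Fin n) (a b : Fin 2) (hij : (j : ℕ) = i + 1)
    (m : Fin n) : ee (c ∘ swap (i, a) (j, b)) m ≤ ee c m +
      ((if c (i, a) = m then ind (c (i, a + 1) = c (i, a)) else 0) +
       (if c (j, b) = m then ind (c (j, b) = c (i, a + 1)) else 0) +
       (if c (i, a) = m then ind (c (j, b + 1) = c (i, a)) else 0) +
       (if c (j, b) = m then ind (c (j, b) = c (j, b + 1)) else 0)) := by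
  have hne : i ≠ j := by rintro rfl; omega
  have n1 : ∀ u : Fin 2, u + 1 ≠ u := by decide
  have f1 : swap (i, a) (j, b) (i, a + 1) = (i, a + 1) :=
    swap_apply_of_ne_of_ne (by simp [n1]) (by simp [hne])
  have f2 : swap (i, a) (j, b) (j, b + 1) = (j, b + 1) :=
    swap_apply_of_ne_of_ne (by simp [hne.symm]) (by simp [n1])
  have f3 : ∀ x u, x ≠ i → x ≠ j → swap (i, a) (j, b) (x, u) = (x, u) := fun x u h1 h2 =>
    swap_apply_of_ne_of_ne (by simp [h1]) (by simp [h2])
  have both : ∀ x, (∀ u, (c ∘ swap (i, a) (j, b)) (x, u) = m) →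
      (c (j, b) = m ∧ c (j, b) = c (i, a + 1)) ∨ (c (i, a) = m ∧ c (j, b + 1) = c (i, a)) ∨
      (x ≠ i ∧ x ≠ j ∧ ∀ u, c (x, u) = m) := by
    intro x hx
    by_cases c1 : x = i
    · subst c1
      have e1 := hx a; have e2 := hx (a + 1)
      simp only [Function.comp_apply, swap_apply_left, f1] at e1 e2
      exact Or.inl ⟨e1, e1.trans e2.symm⟩
    by_cases c2 : x = j
    · subst c2
      have e1 := hx b; have e2 := hx (b + 1)
      simp only [Function.comp_apply, swap_apply_right, f2] at e1 e2
      exact Or.inr (Or.inl ⟨e1, e2.trans e1.symm⟩)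
    · exact Or.inr (Or.inr ⟨c1, c2, fun u => by simpa [f3 x u c1 c2] using hx u⟩)
  unfold ee
  by_cases s0 : Start c m
  · rw [if_pos s0]
    by_cases c1 : m.rev = i ∨ m.rev = j
    · have one : (c (i, a) = m ∧ c (i, a + 1) = c (i, a)) ∨
          (c (j, b) = m ∧ c (j, b) = c (j, b + 1)) := by
        rcases c1 with c1 | c1
        · left; rw [← c1]; exact ⟨s0.1 _, by rw [s0.1, s0.1]⟩
        · right; rw [← c1]; exact ⟨s0.1 _, by rw [s0.1, s0.1]⟩
      by_cases t : ∃ x, ∀ u, (c ∘ swap (i, a) (j, b)) (x, u) = m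
      · obtain ⟨x, hx⟩ := t
        rcases both x hx with h | h | ⟨h3, h4, h5⟩
        · rcases one with o | o <;> simp only [ind, h.1, o.1, if_true, if_pos h.2, if_pos o.2] <;>
            split_ifs <;> omega
        · rcases one with o | o <;> simp only [ind, h.1, o.1, if_true, if_pos h.2, if_pos o.2] <;>
            split_ifs <;> omega
        · have := h2 (x, 0) (x, 1) (m.rev, 0) (by rw [h5, h5]) (by rw [h5, s0.1])
          have hx' : x ≠ m.rev := by rcases c1 with c1 | c1 <;> rw [c1] <;> assumption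
          simp [hx'] at this
      · rw [if_neg t]
        rcases one with o | o <;> simp only [ind, o.1, if_true, if_pos o.2] <;>
          split_ifs <;> omega
    · have : Start (c ∘ swap (i, a) (j, b)) m := by
        push Not at c1
        refine ⟨fun u => by simpa [f3 _ u c1.1 c1.2] using s0.1 u, fun p hp => s0.2 _ ?_⟩
        have e1 := c1.1; have e2 := c1.2
        rw [swap_apply_def]
        split_ifs with h3 h4
        · subst h3; simp only [Fin.lt_def, Ne, Fin.ext_iff] at *; omega
        · subst h4; simp only [Fin.lt_def, Ne, Fin.ext_iff] at *; omega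
        · exact hp
      rw [if_pos this]; omega
  · rw [if_neg s0]
    by_cases t0 : ∃ x, ∀ u, c (x, u) = m
    · rw [if_pos t0]; split_ifs <;> omega
    rw [if_neg t0]
    by_cases t : ∃ x, ∀ u, (c ∘ swap (i, a) (j, b)) (x, u) = m
    · obtain ⟨x, hx⟩ := t
      rcases both x hx with h | h | ⟨_, _, h5⟩
      · simp only [ind, h.1, if_true, if_pos h.2]; split_ifs <;> omega
      · simp only [ind, h.1, if_true, if_pos h.2]; split_ifs <;> omega
      · exact absurd ⟨x, h5⟩ t0
    · rw [if_neg t]; split_ifs <;> omega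

lemma pot_step {c c' : Config n} (h : Swap c c') (h2 : Two c) :
    potD c' + potE c' ≤ potD c + potE c + 6 := by
  obtain ⟨i, j, a, b, hij, rfl⟩ := h
  have h3 := potD_step c i j a b hij
  have h4 := Finset.sum_le_sum fun m (_ : m ∈ univ) => ee_step h2 i j a b hij m
  simp only [Finset.sum_add_distrib, Finset.sum_ite_eq, mem_univ, if_true] at h4
  have h5 : ∀ x y : Fin n, ind (x < y) + ind (x = y) ≤ 1 := fun x y => by
    unfold ind; simp only [Fin.lt_def, Fin.ext_iff]; split_ifs <;> omega
  have := h5 (c (i, a + 1)) (c (i, a)); have := h5 (c (j, b)) (c (i, a + 1))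
  have := h5 (c (j, b + 1)) (c (i, a)); have := h5 (c (j, b)) (c (j, b + 1))
  unfold potE; omega

lemma sum_lt_pairs (n : ℕ) :
    2 * (∑ i : Fin n, ∑ j : Fin n, if i < j then 1 else 0) + n = n * n := by
  have h1 : (∑ i : Fin n, ∑ j : Fin n, if i < j then 1 else 0) =
      ∑ i : Fin n, ∑ j : Fin n, if j < i then 1 else 0 := Finset.sum_comm
  have h2 : (∑ i : Fin n, ∑ j : Fin n, if i = j then 1 else 0) = n := by simp
  have h3 : (∑ i : Fin n, ∑ j : Fin n, ((if i < j then 1 else 0) + (if j < i then 1 else 0) +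
      if i = j then 1 else 0)) = ∑ _i : Fin n, ∑ _j : Fin n, 1 := by
    refine Finset.sum_congr rfl fun i _ => Finset.sum_congr rfl fun j _ => ?_
    simp only [Fin.lt_def, Fin.ext_iff]; split_ifs <;> omega
  simp only [Finset.sum_add_distrib] at h3
  rw [h2, ← h1] at h3
  simp only [Finset.sum_const, card_univ, Fintype.card_fin, smul_eq_mul, mul_one] at h3
  omega

theorem lower (hn : 2 ≤ n) {k : ℕ} (h : SortsIn n k) : n * (2 * n - 1) ≤ 3 * k := by
  obtain ⟨c, h0, h1, hs⟩ := h
  have a0 : Two (c 0) := by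
    rw [h0]
    rintro ⟨p, u⟩ ⟨q, v⟩ ⟨r, w⟩ e1 e2
    simp only [Fin.rev_inj] at e1 e2
    subst e1 e2
    simp only [Prod.mk.injEq, true_and]
    revert u v w; decide
  have b0 : potD (c 0) + potE (c 0) = 0 := by
    rw [h0, Nat.add_eq_zero_iff]
    refine ⟨Finset.sum_eq_zero fun p _ => Finset.sum_eq_zero fun q _ => ?_,
      Finset.sum_eq_zero fun j _ => if_pos ⟨fun a => by simp, fun p hp => ?_⟩⟩
    · unfold dd; simp only [Fin.val_rev, Fin.lt_def, Fin.ext_iff]; split_ifs <;> omega
    · exact Fin.lt_rev_iff.1 hp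
  have hall : ∀ t ≤ k, Two (c t) ∧ potD (c t) + potE (c t) ≤ 6 * t := by
    intro t
    induction t with
    | zero => intro _; exact ⟨a0, b0.le⟩
    | succ t ih =>
      intro ht
      obtain ⟨i1, i2⟩ := ih (by omega)
      have := pot_step (hs t (by omega)) i1
      exact ⟨two_swap (hs t (by omega)) i1, by omega⟩
  have h2 := (hall k le_rfl).2
  have e1 : potD (c k) = 8 * ∑ i : Fin n, ∑ j : Fin n, if i < j then 1 else 0 := by
    rw [h1]; unfold potD dd
    simp only [Fintype.sum_prod_type, Fin.sum_univ_two, Finset.mul_sum, ← Finset.sum_add_distrib]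
    refine Finset.sum_congr rfl fun i _ => Finset.sum_congr rfl fun j _ => ?_
    split_ifs <;> omega
  have e2 : potE (c k) = 2 * n := by
    have : ∀ j, ee (c k) j = 2 := by
      intro j
      unfold ee
      rw [if_neg, if_pos ⟨j, fun a => by rw [h1]⟩]
      rw [h1]
      rintro ⟨s1, s2⟩
      have t1 := congrArg Fin.val (s1 0)
      have t2 := s2 (⟨0, by omega⟩, 0)
      have := j.2
      simp only [Fin.lt_def, Fin.val_rev] at t1 t2
      omega
    simp [potE, this, mul_comm]
  have h3 := sum_lt_pairs n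
  obtain ⟨m, rfl⟩ : ∃ m, n = m + 1 := ⟨n - 1, by omega⟩
  rw [show 2 * (m + 1) - 1 = 2 * m + 1 by omega]
  nlinarith

end Pool.Agent.P.MP_894816_co
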