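import Pool.Agent.P.MP_894816_co.Triple

namespace Pool.Agent.P.MP_894816_co

open Equiv

variable {t k : ℕ}

lemma z_top (h : k + 2 ≤ t) : ph t k (12 * t + 2 * k - 1) = 1 :=
  ph_of h _ (12 * t + 2 * k - 1) (12 * t + 2 * k - 1) _ (by split_ifs <;> omega)
    (by split_ifs <;> omega) (by omega)

lemma z_odd (h : k + 2 ≤ t) (p y : ℕ) (hp : p % 2 = 1) (hy : y + p + 1 = 12 * t + 2 * k)
    (hz : p + 1 < 6 * t - 4 * k ∨ (10 * t + 2 * k < p ∧ p < 12 * t + 2 * k - 1) ∨
      ∃ i < k, p + 1 = 6 * t - 4 * k + 10 * i + 8) : ph t k p = y := by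
  rcases hz with hz | hz | ⟨i, hi, hz⟩ <;>
  exact ph_of h p p p y (by split_ifs <;> omega) (by split_ifs <;> omega) (by omega)

lemma z_even (h : k + 2 ≤ t) (p y : ℕ) (hp : p % 2 = 0) (hy : y + p = 12 * t + 2 * k + 1)
    (hz : (1 ≤ p ∧ p < 6 * t - 4 * k) ∨
      (6 * t + 6 * k < p ∧ p < 12 * t + 2 * k ∧ p ≠ 10 * t + 2 * k) ∨
      ∃ i < k, p + 1 = 6 * t - 4 * k + 10 * i + 3 ∨ p + 1 = 6 * t - 4 * k + 10 * i + 5 ∨
        p + 1 = 6 * t - 4 * k + 10 * i + 9) : ph t k p = y := by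
  rcases hz with hz | hz | ⟨i, hi, hz | hz | hz⟩ <;>
  exact ph_of h p p p y (by split_ifs <;> omega) (by split_ifs <;> omega) (by omega)

lemma z_end (h : k + 2 ≤ t) : ph t k (10 * t + 2 * k) = 6 * t - 4 * k + 1 :=
  ph_of h _ (6 * t + 6 * k) (6 * t + 6 * k) _ (by split_ifs <;> omega)
    (by split_ifs <;> omega) (by omega)

lemma z_end1 (h : k + 2 ≤ t) : ph t k (10 * t + 2 * k - 1) = 2 * t + 1 :=
  ph_of h _ (10 * t + 2 * k) (10 * t + 2 * k) _ (by split_ifs <;> omega)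
    (by split_ifs <;> omega) (by omega)

lemma z_odd2 (h : k + 2 ≤ t) (p y : ℕ) (hp : p % 2 = 1) (hy : y + p + 3 = 12 * t + 2 * k)
    (hz : (6 * t + 6 * k ≤ p + 1 ∧ p + 2 < 10 * t + 2 * k) ∨
      ∃ i < k, p + 1 = 6 * t - 4 * k + 10 * i ∨ p + 1 = 6 * t - 4 * k + 10 * i + 2 ∨
        p + 1 = 6 * t - 4 * k + 10 * i + 4) : ph t k p = y := by
  rcases hz with hz | ⟨i, hi, hz | hz | hz⟩
  · exact ph_of h p (p + 2) (p + 2) y (by split_ifs <;> omega) (by split_ifs <;> omega) (by omega)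
  all_goals
    exact ph_of h p p (p + 2) y (by split_ifs <;> omega) (by split_ifs <;> omega) (by omega)

lemma z_seven (h : k + 2 ≤ t) (p y i : ℕ) (hi : i < k) (hy : y + p = 12 * t + 2 * k + 7)
    (hz : p + 1 = 6 * t - 4 * k + 10 * i + 7) : ph t k p = y :=
  ph_of h p p (p - 6) y (by split_ifs <;> omega) (by split_ifs <;> omega) (by omega)

def xe (t k u : ℕ) : ℕ :=
  if u = 0 then 12 * t + 2 * k - 1 else if u ≤ t then 12 * t + 2 * k - 2 * u
  else if u ≤ t + k + 1 then 6 * t + 6 * k - 4 - 10 * (u - t - 1)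
  else if u ≤ 2 * t then 10 * t - 4 * u else 6 * t - 2 * u

def xo (t k u : ℕ) : ℕ :=
  if u < t then 2 * u + 1 else if u ≤ t + k then 6 * t - 4 * k + 1 + 10 * (u - t)
  else if u ≤ 2 * t then 2 * t + 2 * k + 1 + 4 * u else 6 * t + 2 * k + 1 + 2 * u

def ye (t k u : ℕ) : ℕ :=
  if u < 2 * t - 2 * k then 2 * t + 1 + 2 * u
  else if u < 2 * t + k then 6 * t - 4 * k + 10 * ((u - (2 * t - 2 * k)) / 3) +
    (if (u - (2 * t - 2 * k)) % 3 = 0 then 3 else if (u - (2 * t - 2 * k)) % 3 = 1 then 7 else 9)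
  else 4 * u + 2 * k + 3 - 2 * t

def yo (t k u : ℕ) : ℕ :=
  if u + 1 < 2 * t - 2 * k then 10 * t + 2 * k - 2 - 2 * u
  else if u + 1 < 2 * t + k then 6 * t + 6 * k - 10 * ((u + 1 - (2 * t - 2 * k)) / 3) -
    (if (u + 1 - (2 * t - 2 * k)) % 3 = 0 then 2
      else if (u + 1 - (2 * t - 2 * k)) % 3 = 1 then 6 else 8)
  else 14 * t - 6 - 4 * u

lemma x_eo (h : k + 2 ≤ t) (u : ℕ) (hu : u + 2 ≤ 3 * t) : ph t k (xe t k u) = xo t k u := by
  have h1 : xe t k u = xe t k u := rfl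
  have h2 : xo t k u = xo t k u := rfl
  conv at h1 => rhs; unfold xe
  conv at h2 => rhs; unfold xo
  generalize xe t k u = p at h1 ⊢
  generalize xo t k u = y at h2 ⊢
  by_cases c1 : u = 0
  · rw [show p = 12 * t + 2 * k - 1 by split_ifs at h1; omega, z_top h]
    split_ifs at h2 <;> omega
  by_cases c2 : u = t
  · rw [show p = 10 * t + 2 * k by split_ifs at h1 <;> omega, z_end h]
    split_ifs at h2 <;> omega
  by_cases c3 : t < u ∧ u ≤ t + k
  · exact z_seven h p y (k - (u - t)) (by omega) (by split_ifs at h1 h2 <;> omega)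
      (by split_ifs at h1 <;> omega)
  · exact z_even h p y (by split_ifs at h1 <;> omega) (by split_ifs at h1 h2 <;> omega)
      (by rw [← or_assoc]; left; split_ifs at h1 <;> omega)

lemma x_oe (h : k + 2 ≤ t) (u : ℕ) (hu : u + 2 ≤ 3 * t) : ph t k (xo t k u) = xe t k (u + 1) := by
  have h1 : xe t k (u + 1) = xe t k (u + 1) := rfl
  have h2 : xo t k u = xo t k u := rfl
  conv at h1 => rhs; unfold xe
  conv at h2 => rhs; unfold xo
  generalize xe t k (u + 1) = y at h1 ⊢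
  generalize xo t k u = p at h2 ⊢
  simp only [Nat.add_eq_zero_iff, one_ne_zero, and_false, if_false] at h1
  by_cases c1 : u < t ∨ 2 * t ≤ u
  · exact z_odd h p y (by split_ifs at h2 <;> omega) (by split_ifs at h1 h2 <;> omega)
      (by rw [← or_assoc]; left; split_ifs at h2 <;> omega)
  refine z_odd2 h p y (by split_ifs at h2 <;> omega) (by split_ifs at h1 h2 <;> omega) ?_
  by_cases hk : t + k ≤ u
  · left; split_ifs at h2 <;> omega
  · exact Or.inr ⟨u - t, by omega, by split_ifs at h2 <;> omega⟩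

lemma x_last (h : k + 2 ≤ t) : ph t k (xe t k (3 * t - 1)) = xe t k 0 := by
  have h1 : xe t k (3 * t - 1) = 2 := by unfold xe; split_ifs <;> omega
  have h2 : xe t k 0 = 12 * t + 2 * k - 1 := by simp [xe]
  rw [h1, h2]; exact z_even h _ _ (by omega) (by omega) (Or.inl (by omega))

lemma y_eo (h : k + 2 ≤ t) (u : ℕ) (hu : u + 2 ≤ 3 * t) : ph t k (ye t k u) = yo t k u := by
  have h1 : ye t k u = ye t k u := rfl
  have h2 : yo t k u = yo t k u := rfl
  conv at h1 => rhs; unfold ye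
  conv at h2 => rhs; unfold yo
  generalize ye t k u = p at h1 ⊢
  generalize yo t k u = y at h2 ⊢
  by_cases c1 : u + 1 < 2 * t - 2 * k
  · exact z_odd h p y (by split_ifs at h1 <;> omega) (by split_ifs at h1 h2 <;> omega)
      (Or.inl (by split_ifs at h1 <;> omega))
  by_cases c2 : u + 1 = 2 * t - 2 * k
  · refine z_odd2 h p y (by split_ifs at h1 <;> omega) (by split_ifs at h1 h2 <;> omega) ?_
    by_cases hk : k = 0
    · left; split_ifs at h1 <;> omega
    · exact Or.inr ⟨0, by omega, by split_ifs at h1 <;> omega⟩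
  by_cases c3 : u < 2 * t + k
  · obtain ⟨i, r, hr, hv⟩ : ∃ i r, r < 3 ∧ u = 2 * t - 2 * k + 3 * i + r :=
      ⟨(u - (2 * t - 2 * k)) / 3, (u - (2 * t - 2 * k)) % 3, by omega, by omega⟩
    rcases (by omega : r = 0 ∨ r = 1 ∨ r = 2) with rfl | rfl | rfl
    · exact z_odd2 h p y (by split_ifs at h1 <;> omega) (by split_ifs at h1 h2 <;> omega)
        (Or.inr ⟨i, by omega, by split_ifs at h1 <;> omega⟩)
    · exact z_odd h p y (by split_ifs at h1 <;> omega) (by split_ifs at h1 h2 <;> omega)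
        (Or.inr (Or.inr ⟨i, by omega, by split_ifs at h1 <;> omega⟩))
    · refine z_odd2 h p y (by split_ifs at h1 <;> omega) (by split_ifs at h1 h2 <;> omega) ?_
      by_cases hk : i + 1 = k
      · left; split_ifs at h1 <;> omega
      · exact Or.inr ⟨i + 1, by omega, by split_ifs at h1 <;> omega⟩
  · exact z_odd2 h p y (by split_ifs at h1 <;> omega) (by split_ifs at h1 h2 <;> omega)
      (Or.inl (by split_ifs at h1 <;> omega))

lemma y_oe (h : k + 2 ≤ t) (u : ℕ) (hu : u + 2 ≤ 3 * t) : ph t k (yo t k u) = ye t k (u + 1) := by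
  have h1 : ye t k (u + 1) = ye t k (u + 1) := rfl
  have h2 : yo t k u = yo t k u := rfl
  conv at h1 => rhs; unfold ye
  conv at h2 => rhs; unfold yo
  generalize ye t k (u + 1) = y at h1 ⊢
  generalize yo t k u = p at h2 ⊢
  by_cases c3 : 2 * t - 2 * k ≤ u + 1 ∧ u + 1 < 2 * t + k
  · obtain ⟨i, r, hr, hv⟩ : ∃ i r, r < 3 ∧ u + 1 = 2 * t - 2 * k + 3 * i + r :=
      ⟨(u + 1 - (2 * t - 2 * k)) / 3, (u + 1 - (2 * t - 2 * k)) % 3, by omega, by omega⟩
    exact z_even h p y (by split_ifs at h2 <;> omega) (by split_ifs at h1 h2 <;> omega)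
      (Or.inr (Or.inr ⟨k - 1 - i, by omega, by split_ifs at h2 <;> omega⟩))
  · exact z_even h p y (by split_ifs at h2 <;> omega) (by split_ifs at h1 h2 <;> omega)
      (by rw [← or_assoc]; left; split_ifs at h2 <;> omega)

lemma y_last (h : k + 2 ≤ t) : ph t k (ye t k (3 * t - 1)) = ye t k 0 := by
  have h1 : ye t k (3 * t - 1) = 10 * t + 2 * k - 1 := by unfold ye; split_ifs <;> omega
  have h2 : ye t k 0 = 2 * t + 1 := by unfold ye; split_ifs <;> omega
  rw [h1, h2]; exact z_end1 h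

lemma cyc_fix (g : Perm ℕ) (e o : ℕ → ℕ) (n : ℕ) (h1 : ∀ u < n, g (e u) = o u)
    (h2 : ∀ u < n, g (o u) = e (u + 1)) (h3 : g (e n) = e 0) :
    (∀ u ≤ n, (g ^ (2 * n + 1)) (e u) = e u) ∧ ∀ u < n, (g ^ (2 * n + 1)) (o u) = o u := by
  have a1 : ∀ u ≤ n, (g ^ (2 * u)) (e 0) = e u := by
    intro u
    induction u with
    | zero => simp
    | succ u ih =>
      intro hu
      rw [show 2 * (u + 1) = 2 * u + 1 + 1 by ring, pow_succ', pow_succ', Perm.mul_apply,
        Perm.mul_apply, ih (by omega), h1 u (by omega), h2 u (by omega)]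
  have a2 : (g ^ (2 * n + 1)) (e 0) = e 0 := by
    rw [pow_succ', Perm.mul_apply, a1 n le_rfl, h3]
  have a3 : ∀ j, (g ^ (2 * n + 1)) ((g ^ j) (e 0)) = (g ^ j) (e 0) := fun j => by
    rw [← Perm.mul_apply, ← pow_add, add_comm, pow_add, Perm.mul_apply, a2]
  refine ⟨fun u hu => by rw [← a1 u hu, a3], fun u hu => ?_⟩
  rw [← h1 u hu, ← a1 u hu.le, ← Perm.mul_apply g, ← pow_succ', a3]

lemma ph_pow_fix (h : k + 2 ≤ t) (p : ℕ) (hp : p < 6 * t - 4 * k ∨ 6 * t + 6 * k < p) :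
    (ph t k ^ (6 * t - 1)) p = p := by
  by_cases h0 : p = 0 ∨ 12 * t + 2 * k - 1 < p
  · refine Perm.pow_apply_eq_self_of_apply_eq_self ?_ _
    rw [ph, Perm.mul_apply, pr_fix (fun j hj => by have := inb_blk h j hj; omega), rv_apply]
    split_ifs <;> omega
  have hx := cyc_fix (ph t k) (xe t k) (xo t k) (3 * t - 1) (fun u hu => x_eo h u (by omega))
    (fun u hu => x_oe h u (by omega)) (x_last h)
  have hy := cyc_fix (ph t k) (ye t k) (yo t k) (3 * t - 1) (fun u hu => y_eo h u (by omega))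
    (fun u hu => y_oe h u (by omega)) (y_last h)
  rw [show 2 * (3 * t - 1) + 1 = 6 * t - 1 by omega] at hx hy
  have X1 : ∀ u, u ≤ 3 * t - 1 → xe t k u = p → (ph t k ^ (6 * t - 1)) p = p :=
    fun u hu e => e ▸ hx.1 u hu
  have X2 : ∀ u, u < 3 * t - 1 → xo t k u = p → (ph t k ^ (6 * t - 1)) p = p :=
    fun u hu e => e ▸ hx.2 u hu
  have Y1 : ∀ u, u ≤ 3 * t - 1 → ye t k u = p → (ph t k ^ (6 * t - 1)) p = p :=
    fun u hu e => e ▸ hy.1 u hu
  have Y2 : ∀ u, u < 3 * t - 1 → yo t k u = p → (ph t k ^ (6 * t - 1)) p = p :=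
    fun u hu e => e ▸ hy.2 u hu
  clear hx hy
  by_cases hpar : p % 2 = 1
  · by_cases c1 : p < 2 * t
    · exact X2 (p / 2) (by omega) (by unfold xo; split_ifs <;> omega)
    by_cases c2 : p < 6 * t - 4 * k
    · exact Y1 (p / 2 - t) (by omega) (by unfold ye; split_ifs <;> omega)
    by_cases c3 : p = 12 * t + 2 * k - 1
    · exact X1 0 (by omega) (by unfold xe; split_ifs <;> omega)
    by_cases c4 : 10 * t + 2 * k < p
    · exact X2 (p / 2 - 3 * t - k) (by omega) (by unfold xo; split_ifs <;> omega)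
    by_cases c5 : (p - (6 * t + 6 * k)) % 4 = 1
    · exact X2 ((p - (2 * t + 2 * k)) / 4) (by omega) (by unfold xo; split_ifs <;> omega)
    · exact Y1 ((p + 2 * t - 2 * k) / 4) (by omega) (by unfold ye; split_ifs <;> omega)
  · by_cases c1 : p ≤ 2 * t
    · exact X1 (3 * t - p / 2) (by omega) (by unfold xe; split_ifs <;> omega)
    by_cases c2 : 10 * t + 2 * k ≤ p
    · exact X1 (6 * t + k - p / 2) (by omega) (by unfold xe; split_ifs <;> omega)
    by_cases c3 : 6 * t + 6 * k < p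
    · exact Y2 (5 * t + k - 1 - p / 2) (by omega) (by unfold yo; split_ifs <;> omega)
    by_cases c5 : (p - 2 * t) % 4 = 0
    · exact X1 ((10 * t - p) / 4) (by omega) (by unfold xe; split_ifs <;> omega)
    · exact Y2 ((14 * t - 6 - p) / 4) (by omega) (by unfold yo; split_ifs <;> omega)

/-- the tripling step with `2k+1` central wires -/
lemma good_triple (h : k + 2 ≤ t) {c : ℕ} (hc : Good (6 * t) c) :
    Good (18 * t + 2 * k - 2)
      (c + (6 * t - 1) * (6 * t + k - 1) + ((6 * t - 1) * (2 * t + k) + 100 * k * k)) := by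
  obtain ⟨F, h1, h2, h3⟩ := exists_word (6 * t - 4 * k) (10 * k) (ph t k ^ (6 * t - 1))⁻¹
    (fun p hp => by rw [Perm.inv_eq_iff_eq, ph_pow_fix h p (by omega)])
  have := good_glue (q := 6 * t - 1) (P := 12 * t + 2 * k - 1) (c := c)
    (d := (6 * t - 1) * (2 * t + k) + 100 * k * k) (by omega) (by omega)
    (by rwa [show 6 * t - 1 + 1 = 6 * t by omega]) (alt _ (blk t k)) (inb_alt (inb_blk h)) F
    (fun j hj => by have := h2 j hj; omega)
    (by rw [prodw_alt (inb_blk h), if_neg (by omega), h1, ← ph, mul_assoc, mul_inv_cancel, mul_one])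
    (by
      simp only [cost_alt (show (12 * t + 2 * k - 1) % 2 = 1 by omega) (inb_blk h), cost_blk h,
        Finset.sum_const, Finset.card_range, smul_eq_mul]
      have := (cost_le_length F).trans h3
      nlinarith)
  rwa [show 6 * t - 1 + (12 * t + 2 * k - 1) = 18 * t + 2 * k - 2 by omega,
    show (12 * t + 2 * k - 1) / 2 = 6 * t + k - 1 by omega] at this

end Pool.Agent.P.MP_894816_co
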