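import Pool.Agent.P.MP_894816_co.Fam
import Pool.Agent.P.MP_894816_co.Orbit
import Pool.Agent.P.MP_894816_co.Bridge
import Pool.Agent.P.MP_894816_co.Lower

namespace Pool.Agent.P.MP_894816_co

open Equiv

/-- the doubling step -/
lemma good_double {m c : ℕ} (h : Good (2 * m + 2) c) : Good (4 * m + 2) (c + (2 * m + 1) * m) := by
  have hi : Inb (2 * m + 1) (lay m) := fun j hj => by have := lay_mem hj; omega
  have hg : ∀ p, (rv (2 * m + 1) * pr (lay m)) p = if 1 ≤ p ∧ p ≤ 2 * m then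
      (if p % 2 = 1 then 2 * m + 1 - p else 2 * m + 3 - p) else if p = 2 * m + 1 then 1 else p :=
    fun p => by rw [Perm.mul_apply, pr_lay, rv_apply]; split_ifs <;> omega
  have hc := cyc_fix (rv (2 * m + 1) * pr (lay m)) (fun u => 2 * u + 1) (fun u => 2 * m - 2 * u) m
    (fun u hu => by rw [hg]; split_ifs <;> omega) (fun u hu => by rw [hg]; split_ifs <;> omega)
    (by rw [hg]; split_ifs <;> omega)
  have hp : (rv (2 * m + 1) * pr (lay m)) ^ (2 * m + 1) = 1 := by
    ext p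
    by_cases h0 : p = 0 ∨ 2 * m + 1 < p
    · exact Perm.pow_apply_eq_self_of_apply_eq_self (by rw [hg]; split_ifs <;> omega) _
    by_cases h1 : p % 2 = 1
    · have := hc.1 (p / 2) (by omega)
      rwa [show 2 * (p / 2) + 1 = p by omega] at this
    · have := hc.2 (m - p / 2) (by omega)
      rwa [show 2 * m - 2 * (m - p / 2) = p by omega] at this
  have := good_glue (q := 2 * m + 1) (P := 2 * m + 1) (d := 0) (by omega) (by omega) h
    (alt _ (lay m)) (inb_alt hi) [] (inb_nil _)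
    (by rw [prodw_alt hi, if_neg (by omega), hp, pr_nil, mul_one, mul_one])
    (by simp only [cost_alt (show (2 * m + 1) % 2 = 1 by omega) hi, cost_lay]; simp)
  rwa [show 2 * m + 1 + (2 * m + 1) = 4 * m + 2 by ring, show (2 * m + 1) / 2 = m by omega,
    add_zero] at this

lemma good_exact (n : ℕ) (h3 : n % 3 = 1) (h4 : 4 ≤ n) :
    ∃ c, Good (2 * n) c ∧ 3 * c = n * (2 * n - 1) + 2 := by
  induction n using Nat.strong_induction_on with
  | _ n ih =>
    by_cases ho : n % 2 = 1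
    · obtain ⟨m, rfl⟩ : ∃ m, n = 2 * m + 1 := ⟨n / 2, by omega⟩
      obtain ⟨c, h1, h2⟩ := ih (m + 1) (by omega) (by omega) (by omega)
      refine ⟨_, by rw [show 2 * (2 * m + 1) = 4 * m + 2 by ring]; exact good_double h1, ?_⟩
      rw [show 2 * (m + 1) - 1 = 2 * m + 1 by omega] at h2
      rw [show 2 * (2 * m + 1) - 1 = 4 * m + 1 by omega, mul_add, h2]; ring
    have hc : n = 4 ∨ n = 10 ∨ n = 16 ∨ n = 22 ∨ n = 28 ∨ (∃ r, n = 34 + 12 * r) ∨
        ∃ r, n = 40 + 12 * r := by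
      by_cases h : n < 34
      · omega
      by_cases h' : n % 12 = 10
      · exact .inr (.inr (.inr (.inr (.inr (.inl ⟨(n - 34) / 12, by omega⟩)))))
      · exact .inr (.inr (.inr (.inr (.inr (.inr ⟨(n - 40) / 12, by omega⟩)))))
    rcases hc with rfl | rfl | rfl | rfl | rfl | ⟨r, rfl⟩ | ⟨r, rfl⟩
    · exact ⟨_, good_of_chk chk8 0, rfl⟩
    · exact ⟨_, good_of_chk chk20 0, rfl⟩
    · exact ⟨_, good_of_chk chk32 0, rfl⟩
    · exact ⟨_, good_of_chk chk44 0, rfl⟩
    · exact ⟨_, good_of_chk chk56 0, rfl⟩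
    · refine ⟨_, good_of_chk chk68 r, ?_⟩
      rw [show 2 * (34 + 12 * r) - 1 = 67 + 24 * r by omega]; ring
    · refine ⟨_, good_of_chk chk80 r, ?_⟩
      rw [show 2 * (40 + 12 * r) - 1 = 79 + 24 * r by omega]; ring

lemma good_bounded (n : ℕ) (hn : 2 ≤ n) :
    ∃ c, Good (2 * n) c ∧ 3 * c ≤ n * (2 * n - 1) + 13000000 := by
  by_cases hs : n < 1034
  · refine ⟨_, good_trivial (2 * n), ?_⟩
    nlinarith [Nat.zero_le (n * (2 * n - 1))]
  obtain ⟨r, k, hk, rfl⟩ : ∃ r k, k ≤ 107 ∧ n = 1034 + 108 * r + k :=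
    ⟨(n - 1034) / 108, (n - 1034) % 108, by omega, by omega⟩
  have h1 := good_of_chk chk94 (r + 7)
  simp only at h1
  rw [show 2 * (47 + 18 * (r + 7)) = 2 * (172 + 18 * r) + 2 by ring] at h1
  have h2 := good_double h1
  rw [show 4 * (172 + 18 * r) + 2 = 6 * (115 + 12 * r) by ring] at h2
  have h3 := good_triple (k := k) (by omega) h2
  refine ⟨_, by rwa [show 2 * (1034 + 108 * r + k) = 18 * (115 + 12 * r) + 2 * k - 2 by omega], ?_⟩
  rw [show 6 * (115 + 12 * r) - 1 = 689 + 72 * r by omega,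
    show 6 * (115 + 12 * r) + k - 1 = 689 + 72 * r + k by omega,
    show 2 * (1034 + 108 * r + k) - 1 = 2067 + 216 * r + 2 * k by omega]
  nlinarith

end Pool.Agent.P.MP_894816_co
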