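import Pool.Agent.P.MP_894816_co.Run

namespace Pool.Agent.P.MP_894816_co

def oF (l0 l1 a0 a1 : ℕ) : Op := ⟨0, (l0, l1), (a0, a1), (0, 0), false, none⟩
def oP (l0 l1 a0 a1 b0 b1 : ℕ) : Op := ⟨1, (l0, l1), (a0, a1), (b0, b1), false, none⟩
def oA (m : Bool) (l0 l1 a0 a1 : ℕ) : Op := ⟨2, (l0, l1), (a0, a1), (0, 0), m, none⟩
def oZ (m : Bool) (l0 l1 a0 a1 b0 b1 : ℕ) : Op := ⟨3, (l0, l1), (a0, a1), (b0, b1), m, none⟩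
def oC (m : Bool) (l0 l1 a0 a1 : ℕ) (x y : List Sg) : Op :=
  ⟨2, (l0, l1), (a0, a1), (0, 0), m, some (x, y)⟩

/-- substitution of `r + m * s` for the parameter -/
def ia (r m : ℕ) (a : Af) : Af := (a.1 + a.2 * r, a.2 * m)
def iL (r m : ℕ) (l : List Sg) : List Sg :=
  l.map fun s => (ia r m s.1, s.2.map fun e => (e.1 + e.2.1 * r, e.2.1 * m, e.2.2))
def ins (r m : ℕ) (p : Op) : Op :=
  ⟨p.k, ia r m p.lo, ia r m p.a, ia r m p.b, p.mir, p.inv.map fun o => (iL r m o.1, iL r m o.2)⟩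

def pg8 : List Op := [
  oF 0 0 2 0, oP 0 0 1 0 3 0, oF 0 0 2 0, oF 3 0 1 0, oP 0 0 1 0 3 0, oF 0 0 1 0, oP 0 0 1 0 2 0,
  oF 0 0 1 0, oF 2 0 1 0, oP 0 0 1 0 2 0, oF 0 0 2 0, oF 0 0 4 0]

def pg20 : List Op := [
  oP 0 0 1 0 8 0, oF 4 0 4 0,
  oC false 4 0 2 0
    [((2, 0), [(17, 0, -2)]), ((2, 0), [(10, 0, 4)])]
    [((2, 0), [(11, 0, 2)]), ((2, 0), [(12, 0, 4)])],
  oF 8 0 1 0, oF 0 0 2 0, oP 0 0 2 0 1 0, oF 3 0 1 0, oP 3 0 1 0 2 0, oA false 2 0 1 0,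
  oP 1 0 1 0 1 0, oF 8 0 1 0, oA true 8 0 1 0, oF 8 0 1 0, oP 6 0 2 0 1 0, oF 3 0 1 0,
  oA false 3 0 1 0, oF 4 0 1 0, oF 5 0 1 0, oP 4 0 1 0 2 0, oP 2 0 1 0 1 0, oA false 3 0 1 0,
  oF 4 0 1 0, oA false 4 0 1 0, oF 0 0 4 0, oP 0 0 4 0 1 0, oF 5 0 5 0, oZ true 5 0 1 0 3 0,
  oP 1 0 4 0 1 0, oF 0 0 2 0,
  oC false 0 0 1 0
    [((2, 0), [(20, 0, -13)])]
    [((2, 0), [(19, 0, -2)])],
  oF 5 0 2 0, oP 1 0 6 0 1 0, oF 6 0 1 0, oP 5 0 1 0 1 0, oF 7 0 1 0, oF 4 0 1 0, oF 4 0 1 0,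
  oA true 4 0 1 0, oF 4 0 1 0, oP 2 0 2 0 1 0, oZ false 4 0 1 0 3 0,
  oC false 6 0 1 0
    [((2, 0), [(10, 0, -5)])]
    [((2, 0), [(8, 0, -2)])],
  oF 5 0 1 0, oP 3 0 1 0 2 0, oA false 5 0 1 0, oF 1 0 6 0, oF 0 0 1 0, oF 9 0 1 0, oF 0 0 10 0]

def pg44 : List Op := [
  oP 0 0 1 0 17 9, oF 7 3 10 6,
  oC false 7 3 5 3
    [((5, 3), [(35, 18, -2)]), ((5, 3), [(16, 6, 4)])]
    [((5, 3), [(17, 6, 2)]), ((5, 3), [(18, 6, 4)])],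
  oF 17 9 1 0,
  oC true 17 9 1 1
    [((1, 0), [(1, 0, 0)]), ((0, 1), [(38, 18, 2)]), ((1, 1), [(37, 22, -4)])]
    [((1, 1), [(38, 22, -2)]), ((0, 1), [(35, 22, -4)]), ((1, 0), [(36, 18, 0)])],
  oF 0 0 5 3, oP 0 0 5 3 1 0, oF 6 3 1 0, oP 6 3 1 0 5 3, oA false 4 2 2 1, oP 1 0 3 2 3 2,
  oP 18 10 1 1 1 0, oF 18 10 1 0, oA true 18 10 2 1, oF 17 9 2 1, oP 12 6 6 4 1 0, oF 7 4 1 0,
  oA false 7 4 1 0, oF 8 4 1 0, oF 11 6 1 0, oP 8 4 1 0 4 2, oP 4 2 3 2 1 0, oA false 5 2 3 2,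
  oF 10 6 1 0, oA false 10 6 1 0, oF 0 0 10 6, oP 0 0 10 6 1 0, oF 11 6 11 6, oZ true 9 4 3 2 7 4,
  oP 1 0 8 4 3 2, oF 0 0 4 2,
  oC false 0 0 2 1
    [((2, 1), [(44, 24, -2)]), ((2, 1), [(13, 6, 2)])]
    [((2, 1), [(43, 24, -2)]), ((2, 1), [(35, 18, -2)])],
  oF 11 6 4 2, oP 2 1 13 7 1 0, oF 6 2 4 4,
  oC true 6 2 2 2
    [((2, 2), [(5, 0, 2)]), ((2, 2), [(25, 12, 2)])]
    [((0, 1), [(14, 4, 2)]), ((2, 1), [(11, 6, -2)]), ((2, 2), [(21, 12, -2)])],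
  oF 12 6 3 2, oP 11 6 1 0 3 2, oF 15 8 1 0, oP 14 8 2 0 2 2, oF 10 6 1 0, oP 8 4 2 2 1 0,
  oF 8 4 1 0, oA true 8 4 3 2, oP 9 4 5 4 2 2, oF 6 2 3 2, oP 3 1 5 3 1 0, oA false 7 2 2 2,
  oP 4 1 3 1 4 4, oZ false 10 6 1 0 7 4,
  oC false 12 6 3 2
    [((3, 2), [(24, 14, -4)]), ((3, 2), [(9, 4, -2)])]
    [((3, 2), [(22, 14, -4)]), ((1, 1), [(11, 4, 2)]), ((2, 1), [(12, 6, -2)])],
  oF 19 10 2 2, oP 15 8 4 2 2 2,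
  oC true 15 8 1 1
    [((1, 1), [(11, 4, 2)]), ((1, 1), [(40, 22, -2)])]
    [((1, 1), [(12, 4, 2)]), ((1, 1), [(38, 18, 2)])],
  oF 14 7 1 1, oA true 14 7 1 1, oF 11 6 1 0, oP 8 5 2 1 2 0, oA false 10 5 2 1, oF 2 1 14 8,
  oP 2 1 12 6 2 2, oF 0 0 4 3, oF 21 12 1 0, oF 0 0 22 12]

def pg32 : List Op := [
  oP 0 0 1 0 14 10, oF 6 4 8 6,
  oC false 6 4 4 3
    [((4, 3), [(29, 20, -2)]), ((4, 3), [(14, 8, 4)])]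
    [((4, 3), [(15, 8, 2)]), ((4, 3), [(16, 8, 4)])],
  oF 14 10 1 0,
  oC true 14 10 1 1
    [((1, 0), [(1, 0, 0)]), ((0, 1), [(32, 20, 2)]), ((1, 1), [(31, 24, -4)])]
    [((1, 1), [(32, 24, -2)]), ((0, 1), [(29, 24, -4)]), ((1, 0), [(30, 20, 0)])],
  oF 0 0 5 4, oP 0 0 5 4 1 0, oA false 5 3 1 1, oP 1 0 4 3 1 2,
  oC true 0 0 1 1
    [((1, 1), [(3, 0, 2)]), ((1, 1), [(29, 18, 2)])]
    [((1, 1), [(5, 4, -2)]), ((1, 1), [(13, 10, -2)])],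
  oF 6 5 1 0, oA false 6 5 1 0, oP 1 1 5 4 1 0, oF 7 5 1 0, oP 7 5 1 0 2 2, oF 9 7 1 0,
  oA false 4 3 3 2, oP 3 1 1 2 5 4, oF 9 7 5 3, oP 9 7 1 0 5 4, oA true 8 5 1 2, oP 8 5 2 4 4 2,
  oC false 13 7 1 2
    [((0, 1), [(29, 24, -4)]), ((1, 1), [(30, 20, -4)]), ((0, 1), [(1, 2, -2)]), ((1, 1), [(2, 0, 2)])]
    [((1, 2), [(26, 8, 4)]), ((1, 2), [(4, 6, -2)])],
  oF 15 11 1 1, oA false 14 10 1 1, oP 14 9 0 1 1 2, oP 12 7 1 0 1 2, oA false 2 1 1 0,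
  oF 3 1 1 0, oP 3 1 1 0 4 4, oA false 7 5 1 0, oF 7 5 2 0, oP 7 5 2 0 4 4, oF 0 0 9 7,
  oP 0 0 9 7 1 0, oF 3 1 4 4,
  oC true 3 1 2 2
    [((2, 2), [(7, 2, 2)]), ((2, 2), [(21, 14, 2)])]
    [((1, 1), [(12, 6, 2)]), ((1, 1), [(11, 8, -2)]), ((2, 2), [(19, 14, -2)])],
  oF 7 5 2 2, oA true 5 3 2 2, oF 9 7 1 0, oP 5 3 5 4 1 2, oF 4 1 1 2, oA false 4 1 1 2,
  oF 3 1 1 0, oP 1 0 3 1 2 4,
  oC false 10 9 2 0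
    [((1, 0), [(26, 16, 0)]), ((1, 0), [(22, 16, 0)]), ((1, 0), [(10, 6, 0)]), ((1, 0), [(3, 2, 0)])]
    [((1, 0), [(14, 16, 0)]), ((1, 0), [(18, 16, 0)]), ((1, 0), [(8, 6, 0)]), ((1, 0), [(6, 6, 0)])],
  oP 6 5 4 4 1 0, oP 13 9 1 0 1 2, oA false 5 5 1 0, oP 3 4 2 1 2 0, oZ false 6 5 1 0 4 4,
  oC false 9 5 1 2
    [((1, 2), [(18, 16, -4)]), ((1, 2), [(9, 6, -2)])]
    [((0, 2), [(12, 16, -4)]), ((1, 0), [(14, 8, 0)]), ((0, 1), [(13, 6, 2)]), ((1, 1), [(12, 8, -2)])],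
  oF 7 5 1 0, oP 5 4 1 1 2 0, oP 11 9 1 0 2 2, oF 11 9 1 0, oP 10 7 2 2 1 2, oP 8 5 1 0 1 2,
  oA false 7 4 1 1, oF 9 7 1 0,
  oC true 9 7 1 1
    [((1, 1), [(11, 6, 2)]), ((1, 1), [(32, 24, -2)])]
    [((1, 1), [(12, 6, 2)]), ((0, 1), [(32, 20, 2)]), ((1, 0), [(14, 8, 0)])],
  oF 9 7 1 0, oP 9 7 1 0 0 1, oF 9 6 0 1, oA true 9 6 0 1, oF 0 0 10 8, oP 0 0 9 6 1 2,
  oF 0 0 1 2, oF 0 0 16 12]

def pg94 : List Op := [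
  oP 0 0 1 0 46 18, oF 5 2 3 2, oP 5 2 3 2 22 8, oF 0 0 5 2, oP 0 0 5 2 5 2, oF 9 4 1 0,
  oP 5 2 4 2 18 6, oF 23 8 6 4,
  oC true 23 8 3 2
    [((3, 2), [(2, 0, 2)]), ((3, 2), [(58, 24, -4)])]
    [((2, 2), [(14, 8, -2)]), ((1, 0), [(8, 4, 0)]), ((3, 2), [(56, 24, -4)])],
  oF 0 0 22 8, oP 0 0 22 8 1 0, oF 29 12 1 0, oP 26 10 3 2 1 0, oF 26 10 1 0, oA true 26 10 4 2,
  oP 27 10 7 4 12 4,
  oC false 39 14 4 2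
    [((4, 2), [(94, 36, -2)]), ((4, 2), [(8, 4, -2)])]
    [((4, 2), [(80, 28, 2)]), ((3, 2), [(12, 4, 2)]), ((1, 0), [(1, 0, 0)])],
  oF 32 12 6 2, oP 32 12 6 2 1 0, oF 23 8 4 2, oP 22 8 4 2 1 0, oA false 23 8 4 2, oF 22 8 11 4,
  oP 21 8 11 4 1 0, oF 21 8 1 0,
  oC false 10 4 6 2
    [((1, 0), [(81, 32, 0)]), ((5, 2), [(57, 24, -2)]), ((1, 0), [(10, 4, 0)]), ((5, 2), [(24, 8, 4)])]
    [((6, 2), [(37, 16, 2)]), ((5, 2), [(22, 8, 4)]), ((1, 0), [(59, 24, 0)])],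
  oP 1 0 9 4 6 2, oF 22 8 9 4, oP 16 6 6 2 9 4, oF 16 6 1 0,
  oC false 7 2 5 2
    [((1, 0), [(69, 28, 0)]), ((4, 2), [(47, 20, -2)]), ((4, 2), [(3, 0, 4)]), ((1, 0), [(18, 8, 0)])]
    [((5, 2), [(31, 12, 2)]), ((4, 2), [(5, 0, 4)]), ((1, 0), [(22, 8, 0)])],
  oP 13 4 4 2 8 4, oA false 12 4 1 0, oF 13 4 1 0, oP 13 4 1 0 7 4, oF 31 12 1 0,
  oA false 30 12 1 0, oP 20 8 10 4 1 0, oF 31 12 7 2, oA false 26 10 6 2, oF 37 14 1 0,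
  oP 37 14 1 0 5 2, oP 21 8 5 2 12 4, oF 42 16 1 0, oA false 33 12 5 2, oF 0 0 21 8,
  oP 0 0 21 8 1 0, oF 13 4 8 4,
  oC true 13 4 4 2
    [((4, 2), [(5, 0, 4)]), ((4, 2), [(79, 32, -2)])]
    [((4, 2), [(34, 16, -4)]), ((1, 0), [(62, 24, 0)]), ((3, 2), [(63, 24, 2)])],
  oF 21 8 1 0, oP 17 6 4 2 21 8, oP 12 4 1 0 4 2, oA true 8 2 4 2, oF 7 2 10 4, oP 6 2 1 0 10 4,
  oF 16 6 1 0,
  oC true 16 6 11 4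
    [((1, 0), [(20, 8, 0)]), ((10, 4), [(22, 8, 4)]), ((5, 2), [(86, 32, 2)]), ((5, 2), [(91, 36, -2)]), ((1, 0), [(59, 24, 0)])]
    [((1, 0), [(74, 28, 0)]), ((10, 4), [(24, 8, 4)]), ((5, 2), [(84, 32, -2)]), ((5, 2), [(72, 28, -2)]), ((1, 0), [(39, 16, 0)])],
  oF 8 2 9 4, oP 8 2 9 4 10 4,
  oC false 19 6 4 2
    [((4, 2), [(84, 32, -2)]), ((4, 2), [(31, 12, 2)])]
    [((3, 2), [(68, 24, 2)]), ((1, 0), [(76, 28, 0)]), ((4, 2), [(45, 20, -2)])],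
  oF 27 10 4 2, oA false 23 8 4 2, oP 18 6 1 0 4 2, oF 42 16 4 2, oP 42 16 1 0 3 2,
  oA true 39 14 3 2, oF 7 2 1 0, oA false 7 2 1 0, oF 8 2 1 0, oP 8 2 1 0 13 6, oF 6 2 1 0,
  oP 6 2 1 0 14 6, oF 0 0 1 0, oA true 0 0 6 2, oP 3 0 9 4 8 4,
  oC false 11 4 6 2
    [((1, 0), [(76, 28, 0)]), ((5, 2), [(72, 28, -2)]), ((6, 2), [(19, 8, 2)])]
    [((1, 0), [(71, 28, 0)]), ((3, 2), [(67, 28, -2)]), ((1, 0), [(62, 24, 0)]), ((7, 2), [(59, 24, -2)])],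
  oP 17 6 6 2 8 4, oF 31 12 6 2, oA false 25 10 6 2, oF 12 4 26 10, oP 12 4 25 10 1 0,
  oP 1 0 2 0 4 2, oF 6 2 1 0, oP 5 2 2 0 6 2, oF 12 4 5 2, oP 11 4 1 0 5 2, oF 1 0 15 6,
  oF 46 18 1 0, oF 0 0 47 18]

lemma chk8 : chk (4, 0) (10, 0, 0) pg8 = true := by decide +kernel
lemma chk20 : chk (10, 0) (64, 0, 0) pg20 = true := by decide +kernel
lemma chk32 : chk (16, 0) (166, 0, 0) (pg32.map (ins 0 0)) = true := by decide +kernel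
lemma chk44 : chk (22, 0) (316, 0, 0) (pg44.map (ins 0 0)) = true := by decide +kernel
lemma chk56 : chk (28, 0) (514, 0, 0) (pg32.map (ins 1 0)) = true := by decide +kernel
lemma chk68 : chk (34, 12) (760, 540, 96) (pg44.map (ins 1 1)) = true := by decide +kernel
lemma chk80 : chk (40, 12) (1054, 636, 96) (pg32.map (ins 2 1)) = true := by decide +kernel
lemma chk94 : chk (47, 18) (1458, 1122, 216) pg94 = true := by decide +kernel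

end Pool.Agent.P.MP_894816_co
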