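import Pool.Agent.P.MP_894816_co.LensData
import Pool.Agent.P.MP_894816_co.Exact
import Pool.Agent.P.MP_894816_co.Six

namespace Pool.Agent.P.MP_894816_co

lemma LH.cast {m c m' c' : ℕ} (h : LH m c) (h1 : m = m') (h2 : c = c') : LH m' c' := by
  subst h1 h2; exact h

lemma Good.cast {m c m' c' : ℕ} (h : Good m c) (h1 : m = m') (h2 : c = c') : Good m' c' := by
  subst h1 h2; exact h

/-- putting the lens back -/
lemma stepA {m c : ℕ} (h5 : 5 ≤ m) (h6 : m ≠ 6) (h : LH m c) :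
    Good (2 * (m + 4)) (c + (4 * m + 8)) := by
  obtain rfl | rfl | ⟨r, rfl⟩ : m = 5 ∨ m = 7 ∨ ∃ r, m = 8 + 1 * r :=
    if h' : m < 8 then by omega else .inr (.inr ⟨m - 8, by omega⟩)
  · exact good_of_chkG (r := 0) cA5 (just_callL h)
  · exact good_of_chkG (r := 0) cA7 (just_callL h)
  · exact (good_of_chkG (r := r) cA8 (just_callL h)).cast (by simp only [av]; ring)
      (by simp only [pv]; ring)

/-- a band along the lens -/
lemma stepB {m c : ℕ} (h5 : 5 ≤ m) (h3 : m % 3 ≠ 0) (h : LH m c) :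
    LH (2 * m) (c + m * (2 * m + 1)) := by
  by_cases h' : m < 28 ∧ m ≠ 26
  · obtain ⟨h1, h2⟩ := h'
    interval_cases m <;> try omega
    exacts [lh_of_chkL (r := 0) cB5 (just_callL h), lh_of_chkL (r := 0) cB7 (just_callL h),
      lh_of_chkL (r := 0) cB8 (just_callL h), lh_of_chkL (r := 0) cB10 (just_callL h),
      lh_of_chkL (r := 0) cB11 (just_callL h), lh_of_chkL (r := 0) cB13 (just_callL h),
      lh_of_chkL (r := 0) cB14 (just_callL h), lh_of_chkL (r := 0) cB16 (just_callL h),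
      lh_of_chkL (r := 0) cB17 (just_callL h), lh_of_chkL (r := 0) cB19 (just_callL h),
      lh_of_chkL (r := 0) cB20 (just_callL h), lh_of_chkL (r := 0) cB22 (just_callL h),
      lh_of_chkL (r := 0) cB23 (just_callL h), lh_of_chkL (r := 0) cB25 (just_callL h)]
  obtain ⟨r, rfl | rfl | rfl | rfl⟩ : ∃ r, m = 26 + 4 * r ∨ m = 28 + 4 * r ∨ m = 29 + 4 * r ∨
      m = 31 + 4 * r :=
    ⟨if m % 4 = 2 then (m - 26) / 4 else (m - 28) / 4, by split_ifs <;> omega⟩
  · exact (lh_of_chkL (r := r) cB26 (just_callL h)).cast (by simp only [av]; ring)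
      (by simp only [pv]; ring)
  · exact (lh_of_chkL (r := r) cB28 (just_callL h)).cast (by simp only [av]; ring)
      (by simp only [pv]; ring)
  · exact (lh_of_chkL (r := r) cB29 (just_callL h)).cast (by simp only [av]; ring)
      (by simp only [pv]; ring)
  · exact (lh_of_chkL (r := r) cB31 (just_callL h)).cast (by simp only [av]; ring)
      (by simp only [pv]; ring)

/-- the doubled arrangement has a lens -/
lemma stepC {r c : ℕ} (h : Good (2 * (r + 5)) c) :
    ∃ k, k + (r + 4) ≤ c ∧ LH (2 * r + 5) (k + 2 * (r + 2) * (r + 3)) := by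
  obtain ⟨k, h1, h2⟩ := rh_of_good (h := 4 + 1 * r) (h.cast (by ring) rfl)
  exact ⟨k, by omega, (lh_of_chkL (r := r) cC (just_callR h2)).cast (by simp only [av]; ring)
    (by simp only [pv]; ring)⟩

lemma lh_all (m : ℕ) (h5 : 5 ≤ m) (h3 : m % 3 ≠ 0) :
    ∃ c, LH m c ∧ 3 * (c + (4 * m + 8)) ≤ (m + 4) * (2 * m + 7) := by
  induction m using Nat.strong_induction_on with
  | _ m ih =>
    by_cases h7 : m = 7
    · subst h7; exact ⟨_, lh_of_chkL (r := 0) cL7 (just_id 0), by decide⟩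
    by_cases h8 : m = 8
    · subst h8; exact ⟨_, lh_of_chkL (r := 0) cL8 (just_id 0), by decide⟩
    by_cases he : m % 2 = 0
    · obtain ⟨k, rfl⟩ : ∃ k, m = 2 * k := ⟨m / 2, by omega⟩
      obtain ⟨c, h1, h2⟩ := ih k (by omega) (by omega) (by omega)
      exact ⟨_, stepB (by omega) (by omega) h1, by nlinarith⟩
    obtain ⟨r, rfl⟩ : ∃ r, m = 2 * r + 5 := ⟨(m - 5) / 2, by omega⟩
    obtain ⟨c, h1, h2⟩ : ∃ c, Good (2 * (r + 5)) c ∧ 3 * c ≤ (r + 5) * (2 * r + 9) := by
      by_cases h0 : r = 0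
      · subst h0; exact ⟨_, good_of_chkG (r := 0) cG10 (just_id 0), by decide⟩
      by_cases h1 : r = 3
      · subst h1; exact ⟨_, good_of_chkG (r := 0) cG16 (just_id 0), by decide⟩
      obtain ⟨c, h1, h2⟩ := ih (r + 1) (by omega) (by omega) (by omega)
      exact ⟨_, stepA (by omega) (by omega) h1, h2⟩
    obtain ⟨k, h4, h6⟩ := stepC h1
    exact ⟨_, h6, by nlinarith⟩

lemma good_all (n : ℕ) (h2 : 2 ≤ n) (h6 : n ≠ 6) :
    ∃ c, Good (2 * n) c ∧ 3 * c ≤ n * (2 * n - 1) + 2 := by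
  by_cases h3 : n % 3 = 1
  · obtain ⟨c, h1, h4⟩ := good_exact n h3 (by omega)
    exact ⟨c, h1, h4.le⟩
  by_cases h9 : n < 9
  · interval_cases n <;> try omega
    exacts [⟨_, good_of_chkG (r := 0) cG4 (just_id 0), by decide⟩,
      ⟨_, good_of_chkG (r := 0) cG6 (just_id 0), by decide⟩,
      ⟨_, good_of_chkG (r := 0) cG10 (just_id 0), by decide⟩,
      ⟨_, good_of_chkG (r := 0) cG16 (just_id 0), by decide⟩]
  obtain ⟨m, rfl⟩ : ∃ m, n = m + 4 := ⟨n - 4, by omega⟩
  obtain ⟨c, h1, h4⟩ := lh_all m (by omega) (by omega)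
  exact ⟨_, stepA (by omega) (by omega) h1,
    by rw [show 2 * (m + 4) - 1 = 2 * m + 7 by omega]; omega⟩

lemma good_six : Good (2 * 6) 23 := good_of_chkG (r := 0) cG12 (just_id 0)

end Pool.Agent.P.MP_894816_co
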