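import Pool.Agent.P.MP_894816_co.Hecke

namespace Pool.Agent.P.MP_894816_co

open Equiv

/-- ascending word `a, ..., a+m-1` -/
def up (a : ℕ) : ℕ → List ℕ
  | 0 => []
  | m + 1 => up a m ++ [a + m]

lemma up_mem {a m k : ℕ} (h : k ∈ up a m) : a ≤ k ∧ k < a + m := by
  induction m with
  | zero => simp [up] at h
  | succ m ih =>
    rcases List.mem_append.1 h with h | h
    · have := ih h; omega
    · have := List.mem_singleton.1 h; omega

lemma pr_up (a m : ℕ) : ∀ p,
    pr (up a m) p = if p = a + m then a else if a ≤ p ∧ p < a + m then p + 1 else p := by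
  induction m with
  | zero => intro p; simp only [up, pr_nil, Perm.one_apply]; split_ifs <;> omega
  | succ m ih =>
    intro p
    rw [up, pr_append, pr_cons, pr_nil, mul_one, Perm.mul_apply, ih, s_apply]; split_ifs <;> omega

lemma cost_up (a m : ℕ) : cost (up a m) + (a + 1) / 2 = (a + m + 1) / 2 := by
  induction m with
  | zero => simp [up]
  | succ m ih => rw [up, cost_append, cost_cons, cost_nil]; split_ifs <;> omega

/-- the inner wires pass one at a time through the `P` outer wires -/
def passes (P : ℕ) : ℕ → List ℕ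
  | 0 => []
  | r + 1 => up (r + 1) P ++ passes P r

lemma pr_passes (P r : ℕ) : ∀ p, pr (passes P r) p =
    if 1 ≤ p ∧ p ≤ P then r + p else if P < p ∧ p ≤ P + r then p - P else p := by
  induction r with
  | zero => intro p; simp only [passes, pr_nil, Perm.one_apply]; split_ifs <;> omega
  | succ r ih => intro p; rw [passes, pr_append, Perm.mul_apply, ih, pr_up]; split_ifs <;> omega

def outer (P : ℕ) (w : ℕ → List ℕ) : ℕ → List ℕ
  | 0 => []
  | r + 1 => up (r + 1) P ++ ((w r).map (· + r) ++ outer P w r)

def prodw (w : ℕ → List ℕ) : ℕ → Perm ℕ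
  | 0 => 1
  | r + 1 => pr (w r) * prodw w r

lemma pr_outer (P : ℕ) (w : ℕ → List ℕ) (hw : ∀ r, Inb P (w r)) (r : ℕ) :
    pr (outer P w r) = pr (passes P r) * prodw w r := by
  induction r with
  | zero => simp [outer, passes, prodw]
  | succ r ih =>
    have : pr (passes P r) * pr (w r) = pr ((w r).map (· + r)) * pr (passes P r) := by
      refine pr_map_conj _ _ _ fun k hk => ?_
      have := hw r k hk
      ext p; simp only [Perm.mul_apply, s_apply, pr_passes]; split_ifs <;> omega
    rw [outer, passes, prodw, pr_append, pr_append, pr_append, ih, ← mul_assoc (pr (List.map _ _)),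
      ← this]
    simp only [mul_assoc]

lemma inb_outer (P : ℕ) (w : ℕ → List ℕ) (hw : ∀ r, Inb P (w r)) (r : ℕ) :
    Inb (r + P) (outer P w r) := by
  induction r with
  | zero => exact inb_nil _
  | succ r ih =>
    refine inb_append.2 ⟨fun k hk => by have := up_mem hk; omega,
      inb_append.2 ⟨fun k hk => ?_, ih.mono (by omega)⟩⟩
    obtain ⟨j, hj, rfl⟩ := List.mem_map.1 hk
    have := hw r j hj; omega

lemma cost_outer (P : ℕ) (hP : P % 2 = 1) (w : ℕ → List ℕ) (r : ℕ) :
    cost (outer P w r) =
      r * (P / 2) + r / 2 + ∑ i ∈ Finset.range r, cost ((w i).map (· + i)) := by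
  induction r with
  | zero => simp [outer]
  | succ r ih =>
    rw [outer, cost_append, cost_append, ih, Finset.sum_range_succ, add_one_mul]
    have := cost_up (r + 1) P
    omega

/-- gluing an inner reversal and an outer structure -/
lemma good_glue {q P c d : ℕ} (hq : q % 2 = 1) (hP : P % 2 = 1) (h : Good (q + 1) c)
    (w : ℕ → List ℕ) (hw : ∀ r, Inb P (w r)) (F : List ℕ) (hF : Inb P F)
    (e : prodw w q * pr F = rv P)
    (hd : ∑ i ∈ Finset.range q, cost ((w i).map (· + i)) + cost F ≤ d) :
    Good (q + P) (c + q * (P / 2) + d) := by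
  obtain ⟨W, h1, h2, h3⟩ := good_remove hq h
  refine ⟨W ++ (outer P w q ++ F), inb_append.2 ⟨h1.mono (by omega),
    inb_append.2 ⟨inb_outer P w hw q, hF.mono (by omega)⟩⟩, ?_, ?_⟩
  · rw [pr_append, pr_append, h2, pr_outer P w hw, mul_assoc, e]
    ext p; simp only [Perm.mul_apply, rv_apply, pr_passes]; split_ifs <;> omega
  · rw [cost_append, cost_append, cost_outer P hP]; omega

/-- blocks that alternate between a word and its mirror image -/
def alt (P : ℕ) (v : List ℕ) (r : ℕ) : List ℕ := if r % 2 = 0 then v else v.map (P - ·)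

lemma inb_alt {P : ℕ} {v : List ℕ} (h : Inb P v) (r : ℕ) : Inb P (alt P v r) := by
  unfold alt; split_ifs
  · exact h
  · exact inb_flip h

lemma cost_alt {P : ℕ} (hP : P % 2 = 1) {v : List ℕ} (h : Inb P v) (r : ℕ) :
    cost ((alt P v r).map (· + r)) = cost v := by
  unfold alt; split_ifs with hr
  · exact cost_map _ _ fun k _ => by omega
  · rw [List.map_map]
    exact cost_map _ _ fun k hk => by have := h k hk; simp only [Function.comp]; omega

lemma prodw_alt {P : ℕ} {v : List ℕ} (h : Inb P v) (r : ℕ) :
    prodw (alt P v) r = (if r % 2 = 0 then 1 else rv P) * (rv P * pr v) ^ r := by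
  induction r with
  | zero => simp [prodw]
  | succ r ih =>
    rw [prodw, ih, alt, pow_succ']
    by_cases hr : r % 2 = 0
    · rw [if_pos hr, if_pos hr, if_neg (by omega), one_mul, ← mul_assoc, ← mul_assoc,
        rv_mul_self, one_mul]
    · rw [if_neg hr, if_neg hr, if_pos (by omega), pr_flip h, one_mul, ← mul_assoc,
        mul_assoc _ (rv P) (rv P), rv_mul_self, mul_one]

end Pool.Agent.P.MP_894816_co
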