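import Pool.Agent.P.MP_894816_co.Words

namespace Pool.Agent.P.MP_894816_co

open Equiv

/-- keep only the letters that exchange an ascending pair -/
def hk : Perm ℕ → List ℕ → List ℕ
  | _, [] => []
  | g, k :: w => if g k < g (k + 1) then k :: hk (g * s k) w else hk g w

def Asc : Perm ℕ → List ℕ → Prop
  | _, [] => True
  | g, k :: w => g k < g (k + 1) ∧ Asc (g * s k) w

lemma asc_hk (w : List ℕ) : ∀ g, Asc g (hk g w) := by
  induction w with
  | nil => intro g; trivial
  | cons k w ih =>
    intro g; unfold hk; split_ifs with h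
    · exact ⟨h, ih _⟩
    · exact ih _

lemma hk_sublist (w : List ℕ) : ∀ g, (hk g w).Sublist w := by
  induction w with
  | nil => intro g; exact List.Sublist.refl _
  | cons k w ih =>
    intro g; unfold hk; split_ifs with h
    · exact (ih _).cons_cons k
    · exact (ih _).cons k

def cnt (g : Perm ℕ) (m : ℕ) : ℕ → ℕ
  | 0 => 0
  | j + 1 => cnt g m j + if m < g (j + 1) then 1 else 0

lemma cnt_s_lt (g : Perm ℕ) (m k j : ℕ) (h : j < k) : cnt (g * s k) m j = cnt g m j := by
  induction j with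
  | zero => rfl
  | succ j ih =>
    have : s k (j + 1) = j + 1 := by rw [s_apply]; split_ifs <;> omega
    rw [cnt, cnt, ih (by omega), Perm.mul_apply, this]

lemma cnt_s_eq (g : Perm ℕ) (m k : ℕ) :
    cnt (g * s (k + 1)) m (k + 1) = cnt g m k + if m < g (k + 2) then 1 else 0 := by
  have : s (k + 1) (k + 1) = k + 2 := by rw [s_apply]; simp
  rw [cnt, cnt_s_lt g m (k + 1) k (by omega), Perm.mul_apply, this]

lemma cnt_s_gt (g : Perm ℕ) (m k j : ℕ) :
    cnt (g * s (k + 1)) m (k + 2 + j) = cnt g m (k + 2 + j) := by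
  induction j with
  | zero =>
    have : s (k + 1) (k + 1 + 1) = k + 1 := by rw [s_apply]; simp
    show cnt _ m (k + 1 + 1) = cnt g m (k + 1 + 1)
    rw [cnt, cnt_s_eq, Perm.mul_apply, this, cnt, cnt, show k + 2 = k + 1 + 1 from rfl]; omega
  | succ j ih =>
    have : s (k + 1) (k + 2 + j + 1) = k + 2 + j + 1 := by rw [s_apply]; split_ifs <;> omega
    show cnt _ m (k + 2 + j + 1) = cnt g m (k + 2 + j + 1)
    rw [cnt, cnt, ih, Perm.mul_apply, this]

def Dom (g g' : Perm ℕ) : Prop := ∀ m j, cnt g m j ≤ cnt g' m j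

lemma dom_step {g g' : Perm ℕ} (h : Dom g g') (k : ℕ) :
    Dom (g * s (k + 1)) (if g' (k + 1) < g' (k + 1 + 1) then g' * s (k + 1) else g') := by
  intro m j
  have h0 := h m k
  have h2 := h m (k + 1 + 1)
  rcases lt_trichotomy j (k + 1) with hj | rfl | hj
  · rw [cnt_s_lt _ _ _ _ hj]; split_ifs
    · rw [cnt_s_lt _ _ _ _ hj]; exact h m j
    · exact h m j
  · rw [cnt_s_eq]
    simp only [cnt] at h2
    by_cases hc : g' (k + 1) < g' (k + 1 + 1)
    · rw [if_pos hc, cnt_s_eq]
      simp only [show k + 2 = k + 1 + 1 from rfl]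
      split_ifs at h2 ⊢ <;> omega
    · rw [if_neg hc, cnt]
      simp only [show k + 2 = k + 1 + 1 from rfl]
      split_ifs at h2 ⊢ <;> omega
  · obtain ⟨i, rfl⟩ : ∃ i, j = k + 2 + i := ⟨j - (k + 2), by omega⟩
    rw [cnt_s_gt]; split_ifs
    · rw [cnt_s_gt]; exact h m _
    · exact h m _

lemma dom_hk (w : List ℕ) (hw : ∀ k ∈ w, 1 ≤ k) :
    ∀ g g', Dom g g' → Dom (g * pr w) (g' * pr (hk g' w)) := by
  induction w with
  | nil => intro g g' h; simpa [hk] using h
  | cons k w ih =>
    intro g g' h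
    obtain ⟨k, rfl⟩ : ∃ j, k = j + 1 := ⟨k - 1, by have := hw k List.mem_cons_self; omega⟩
    have h1 := ih (fun i hi => hw i (List.mem_cons_of_mem _ hi)) _ _ (dom_step h k)
    unfold hk
    split_ifs at h1 ⊢
    · simpa [mul_assoc] using h1
    · simpa [mul_assoc] using h1

lemma cnt_le (g : Perm ℕ) (m j : ℕ) : cnt g m j ≤ j := by
  induction j with
  | zero => exact le_rfl
  | succ j ih => rw [cnt]; split_ifs <;> omega

lemma cnt_rv (N m j : ℕ) (h : j + m ≤ N) : cnt (rv N) m j = j := by
  induction j with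
  | zero => rfl
  | succ j ih => rw [cnt, ih (by omega), rv_apply]; split_ifs <;> omega

lemma eq_rv_of_dom {N : ℕ} {g : Perm ℕ} (h : Dom (rv N) g)
    (hf : ∀ p, p < 1 ∨ N < p → g p = p) : g = rv N := by
  have h1 : ∀ j, 1 ≤ j → j ≤ N → N - j < g j := by
    intro j hj hN
    obtain ⟨j, rfl⟩ : ∃ i, j = i + 1 := ⟨j - 1, by omega⟩
    have h2 := h (N - (j + 1)) (j + 1)
    rw [cnt_rv _ _ _ (by omega), cnt] at h2
    have := cnt_le g (N - (j + 1)) j
    split_ifs at h2 <;> omega
  have h2 : ∀ j, 1 ≤ j → j ≤ N → g j = N + 1 - j := by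
    intro j
    induction j using Nat.strong_induction_on with
    | _ j ih =>
      intro hj hN
      have h3 := h1 j hj hN
      by_contra hne
      by_cases hb : N < g j
      · have := g.injective (hf (g j) (Or.inr hb)); omega
      · have h4 := ih (N + 1 - g j) (by omega) (by omega) (by omega)
        have : g (N + 1 - g j) = g j := by omega
        have := g.injective this; omega
  ext p
  rw [rv_apply]; split_ifs with hp
  · exact h2 p hp.1 hp.2
  · exact hf p (by omega)

lemma exists_asc {N : ℕ} {w : List ℕ} (h : Inb N w) (hw : pr w = rv N) :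
    ∃ v, Inb N v ∧ pr v = rv N ∧ cost v ≤ cost w ∧ Asc 1 v := by
  have hi : Inb N (hk 1 w) := fun k hk' => h k ((hk_sublist w 1).subset hk')
  refine ⟨hk 1 w, hi, ?_, (hk_sublist w 1).countP_le, asc_hk w 1⟩
  have := dom_hk w (fun k hk => (h k hk).1) 1 1 (fun _ _ => le_rfl)
  rw [one_mul, one_mul, hw] at this
  refine eq_rv_of_dom this fun p hp => pr_fix fun k hk' => ?_
  have := hi k hk'; omega

/-! ### removing the top wire -/

lemma cost_dn (m : ℕ) : cost (dn 1 m) = m / 2 := by
  induction m with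
  | zero => rfl
  | succ m ih => rw [dn, cost_cons, ih]; split_ifs <;> omega

lemma split_top (N : ℕ) (w : List ℕ) : ∀ (g : Perm ℕ) (p : ℕ), Inb N w → Asc g w → g (p + 1) = N →
    (∀ i, i ≤ N → g i ≤ N) → (g * pr w) 1 = N →
    ∃ B A, pr w = pr B * pr (dn 1 p) * pr A ∧ Inb p B ∧ (∀ k ∈ A, 2 ≤ k ∧ k + 1 ≤ N) ∧
      cost w = cost B + p / 2 + cost A := by
  induction w with
  | nil =>
    intro g p _ _ h1 _ h3
    have : p + 1 = 1 := g.injective (by rw [h1]; simpa using h3.symm)
    obtain rfl : p = 0 := by omega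
    exact ⟨[], [], by simp [dn], inb_nil _, by simp, by simp⟩
  | cons k w ih =>
    intro g p hi ha h1 h2 h3
    obtain ⟨hk, hi'⟩ := inb_cons.1 hi
    have h2' : ∀ i, i ≤ N → (g * s k) i ≤ N := fun i hi => by
      rw [Perm.mul_apply]; apply h2; rw [s_apply]; split_ifs <;> omega
    have h3' : (g * s k * pr w) 1 = N := by simpa [mul_assoc] using h3
    have hne : k ≠ p + 1 := by
      rintro rfl
      have := ha.1; have := h2 (p + 1 + 1) hk.2; omega
    by_cases hkp : k = p
    · subst hkp
      obtain ⟨k, rfl⟩ : ∃ j, k = j + 1 := ⟨k - 1, by omega⟩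
      obtain ⟨B, A, e, hB, hA, hc⟩ := ih (g * s (k + 1)) k hi' ha.2
        (by rw [Perm.mul_apply, s_apply]; simpa using h1) h2' h3'
      refine ⟨B, A, ?_, hB.mono (by omega), hA, ?_⟩
      · rw [pr_cons, e, dn, pr_cons, ← mul_assoc, ← mul_assoc,
          s_comm_pr (fun j hj => by have := hB j hj; omega), add_comm 1 k]
        simp only [mul_assoc]
      · rw [cost_cons, hc]; split_ifs <;> omega
    · obtain ⟨B, A, e, hB, hA, hc⟩ := ih (g * s k) p hi' ha.2
        (by rw [Perm.mul_apply, s_apply]; split_ifs <;> omega) h2' h3'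
      by_cases hlt : k < p
      · refine ⟨k :: B, A, by rw [pr_cons, e, pr_cons]; simp only [mul_assoc],
          inb_cons.2 ⟨by omega, hB⟩, hA, by rw [cost_cons, cost_cons, hc]; omega⟩
      · refine ⟨B, k :: A, ?_, hB, ?_, by rw [cost_cons, cost_cons, hc]; omega⟩
        · rw [pr_cons, e, pr_cons, ← mul_assoc, ← mul_assoc,
            s_comm_pr (fun j hj => by have := hB j hj; omega), mul_assoc (pr B),
            s_comm_pr (fun j hj => by have := dn_mem hj; omega)]
          simp only [mul_assoc]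
        · intro j hj
          rcases List.mem_cons.1 hj with rfl | hj
          · omega
          · exact hA j hj

/-- from `q+1` wires (`q` odd) to `q` wires, saving the even letters of one wire -/
lemma good_remove {q c : ℕ} (hq : q % 2 = 1) (h : Good (q + 1) c) :
    ∃ w, Inb q w ∧ pr w = rv q ∧ cost w + q / 2 ≤ c := by
  obtain ⟨w0, h1, h2, h3⟩ := h
  obtain ⟨w, hi, hw, hc, ha⟩ := exists_asc h1 h2
  obtain ⟨B, A, e, hB, hA, hc'⟩ := split_top (q + 1) w 1 q hi ha rfl (fun i hi => hi)
    (by rw [one_mul, hw, rv_apply]; simp)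
  have e1 : rv (q + 1) = rv q * pr (dn 1 q) := by
    ext p; rw [Perm.mul_apply, pr_dn, rv_apply, rv_apply]; split_ifs <;> omega
  have e2 : pr (dn 1 q) * pr A = pr (A.map (· - 1)) * pr (dn 1 q) := by
    refine pr_map_conj _ _ _ fun k hk => ?_
    have := hA k hk
    ext p; simp only [Perm.mul_apply, s_apply, pr_dn]; split_ifs <;> omega
  have hA' : Inb q (A.map (· - 1)) := by
    intro k hk
    obtain ⟨j, hj, rfl⟩ := List.mem_map.1 hk
    have := hA j hj; omega
  have e3 : pr B * pr (A.map (· - 1)) = rv q := by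
    apply mul_right_cancel (b := pr (dn 1 q))
    rw [← e1, ← hw, e, mul_assoc, ← e2, mul_assoc]
  refine ⟨(A.map (· - 1)).map (q - ·) ++ B, inb_append.2 ⟨inb_flip hA', hB⟩, ?_, ?_⟩
  · rw [pr_append, pr_flip hA', mul_assoc, mul_assoc]
    have : pr (A.map (· - 1)) = (pr B)⁻¹ * rv q := by rw [← e3]; simp
    rw [this, ← e3]
    have h4 := rv_mul_self q
    rw [← e3] at h4
    calc _ = pr B * pr (A.map (· - 1)) * (pr B)⁻¹ *
          (pr B * pr (A.map (· - 1)) * (pr B * pr (A.map (· - 1)))) * pr B := by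
            simp only [mul_assoc]
      _ = _ := by rw [h4]; simp
  · rw [cost_append, List.map_map, cost_map _ _ (fun k hk => by
      have := hA k hk; simp only [Function.comp]; omega)]
    omega

end Pool.Agent.P.MP_894816_co
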