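import Pool.Agent.P.MP_894816_co.Fam
import Pool.Agent.P.MP_894816_co.Hecke

namespace Pool.Agent.P.MP_894816_co

open Equiv

lemma Rch.map (f : ℤ → ℤ) {c : ℕ} {X Y Z W : List ℤ} (h : Rch c X Y Z W) :
    Rch c (X.map f) (Y.map f) (Z.map f) (W.map f) := by
  induction h with
  | refl => exact .refl _ _
  | flip P Q X Y a b h =>
    exact (Rch.flip (P.map f) (Q.map f) (X.map f) (Y.map f) (f a) (f b) (by simp [h])).cast rfl
      (by simp) (by simp) (by simp) (by simp)
  | swap P X Y a b =>
    exact (Rch.swap (P.map f) (X.map f) (Y.map f) (f a) (f b)).cast rfl (by simp) rfl (by simp) rfl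
  | trans _ _ i1 i2 => exact i1.trans i2

/-! ### local programs -/

def flp (i b : ℕ) (s : List El × List El) : List El × List El :=
  match b, s.1.drop i, s.2.drop i with
  | 1, x :: X, y :: Y => (s.1.take i ++ y :: X, s.2.take i ++ x :: Y)
  | _, _, _ => s

lemma flp_spec (f : El → ℤ) (i b : ℕ) (s : List El × List El) :
    Rch 0 (s.1.map f) (s.2.map f) ((flp i b s).1.map f) ((flp i b s).2.map f) := by
  unfold flp
  split
  · rename_i x X y Y h1 h2
    have l1 := congrArg List.length h1
    have l2 := congrArg List.length h2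
    simp only [List.length_drop, List.length_cons] at l1 l2
    refine (Rch.flip ((s.1.take i).map f) ((s.2.take i).map f) (X.map f) (Y.map f) (f x) (f y)
      (by simp; omega)).cast rfl ?_ ?_ (by simp) (by simp)
    · rw [← List.map_cons, ← List.map_append, ← h1, List.take_append_drop]
    · rw [← List.map_cons, ← List.map_append, ← h2, List.take_append_drop]
  · exact .refl _ _

def mov (i d : ℕ) (X : List El) : Option (List El) :=
  match (X.drop i).drop d with
  | x :: Z => some (X.take i ++ x :: ((X.drop i).take d ++ Z))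
  | [] => none

lemma mov_spec (f : El → ℤ) {i d : ℕ} {X Z : List El} (h : mov i d X = some Z) (Y : List ℤ) :
    Rch d (X.map f) Y (Z.map f) Y := by
  unfold mov at h
  split at h
  · rename_i x T h1
    cases h
    have l1 := congrArg List.length h1
    simp only [List.length_drop, List.length_cons] at l1
    refine (rch_up (f x) (((X.drop i).take d).map f) ((X.take i).map f) (T.map f) Y).symm.cast
      (by simp; omega) ?_ rfl (by simp) rfl
    rw [← List.map_cons, ← List.map_append, ← List.map_append, ← h1, List.take_append_drop,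
      List.take_append_drop]
  · cases h

def loc : List ℕ → List El × List El → Option (List El × List El)
  | [], s => some s
  | c :: l, s =>
    match flp (c / 256 + c / 4 % 64) (c / 2 % 2) s with
    | (X, Y) => (mov (c / 256) (c / 4 % 64) X).bind fun Z => loc l (flp (c / 256) (c % 2) (Z, Y))

theorem loc_realize : True := by have := @loc.eq_def; trivial

def lco (l : List ℕ) : ℕ := (l.map fun c => c / 4 % 64).sum

lemma loc_spec (f : El → ℤ) (l : List ℕ) : ∀ (s o : List El × List El), loc l s = some o →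
    Rch (lco l) (s.1.map f) (s.2.map f) (o.1.map f) (o.2.map f) := by
  induction l with
  | nil => intro s o h; cases h; exact .refl _ _
  | cons c l ih =>
    intro s o h
    obtain ⟨Z, e, h⟩ := Option.bind_eq_some_iff.1 h
    exact (((flp_spec f _ _ s).trans (mov_spec f e _)).trans
      ((flp_spec f _ _ (Z, _)).trans (ih _ _ h))).cast (by simp [lco]) rfl rfl rfl rfl

/-- a window travels along the rows; the riders first pass a growing block -/
lemma rch_loop (c : ℕ) (SX SY WX WY R U E : ℕ → List ℤ) (hl : ∀ i, (SX i).length = (SY i).length)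
    (hR : ∀ i, (R i).length = 8) (hE : ∀ i, (E i).length = 4)
    (h : ∀ i, Rch (c + 16) (WX i ++ R i) (WY i ++ U i) (SX i ++ (WX (i + 1) ++ (E i).reverse))
      (SY i ++ WY (i + 1))) (D : List ℤ) (n : ℕ) : ∀ S T : List ℤ,
    Rch (n * (c + 8 * D.length + 16 * n)) (WX 0 ++ (D ++ (fl R n ++ S))) (WY 0 ++ (fl U n ++ T))
      (fl SX n ++ (WX n ++ ((fl E n).reverse ++ (D ++ S)))) (fl SY n ++ (WY n ++ T)) := by
  induction n with
  | zero => intro S T; exact (Rch.refl _ _).cast (by simp) rfl rfl (by simp [fl]) (by simp [fl])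
  | succ n ih =>
    intro S T
    have s1 := ih (R n ++ S) (U n ++ T)
    have s2 := rch_pass ((fl E n).reverse ++ D) (R n) (fl SX n ++ WX n) S
      (fl SY n ++ (WY n ++ (U n ++ T)))
    have l : (fl SX n).length = (fl SY n).length := by
      clear s1 s2 ih
      induction n with
      | zero => rfl
      | succ n ih => simp [fl, ih, hl]
    have s3 := (h n).ctx _ _ ((fl E n).reverse ++ (D ++ S)) T l
    exact ((s1.trans (s2.cast rfl (by simp) rfl rfl rfl)).trans
      (s3.cast rfl (by simp) (by simp) rfl rfl)).cast (by simp [fl_len hE, hR]; ring)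
      (by simp [fl]) (by simp [fl]) (by simp [fl]) (by simp [fl])

def dub (es : List El) : List El := (es ++ sh (1, 0) es).map fun e => (e.1, e.2.1, 2 * e.2.2)

lemma sbk_dub (r n : ℕ) (es : List El) : sbk r (dub es) n = sbk r es (2 * n) := by
  rw [sbk, sbk, fl_dbl]
  refine fl_congr fun i _ => ?_
  have e : ∀ l : List El, (l.map fun e => (e.1, e.2.1, 2 * e.2.2)).map (ev r i) =
      l.map (ev r (2 * i)) := fun l => by
    rw [List.map_map]
    exact List.map_congr_left fun e _ => by simp only [Function.comp, ev]; push_cast; ring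
  rw [dub, e, List.map_append, sh_ev, show av r (1, 0) + 2 * i = 2 * i + 1 by simp [av, add_comm]]

def atoms (l : List Sg) : List El :=
  l.flatMap fun s => (List.range s.1.1).flatMap fun i => sh (i, 0) s.2

def hd (l : List Sg) (g : ℤ) : El := ((((l.headD default).2).headD default).1,
  (((l.headD default).2).headD default).2.1, g)

def stp (g : ℤ) (l : List Sg) : List El :=
  (atoms l).map fun e => (e.1, e.2.1, if 0 < e.1 then 8 * g else -4 * g)

/-- an old move, a local program, or a repeated local program -/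
inductive Op2 where
  | b (p : Op)
  | lc (lo : Af) (k : ℕ) (q : List ℕ)
  | lp (lo n d : Af) (w : ℕ) (g : ℤ) (q : List ℕ)

def step2 : Op2 → List Sg → List Sg → Option (List Sg × List Sg)
  | .b p, X, Y => step p X Y
  | .lc lo k q, X, Y =>
    (cut X lo).bind fun x => (cut x.2 (k, 0)).bind fun x' =>
    (cut Y lo).bind fun y => (cut y.2 (k, 0)).bind fun y' =>
    (loc q (atoms x'.1, atoms y'.1)).bind fun o =>
      if eqv x'.1 [((1, 0), atoms x'.1)] && eqv y'.1 [((1, 0), atoms y'.1)] then
        some (x.1 ++ ((1, 0), o.1) :: x'.2, y.1 ++ ((1, 0), o.2) :: y'.2) else none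
  | .lp lo n d w g q, X, Y =>
    if n = (0, 0) then some (X, Y) else
    (cut X lo).bind fun x => (cut x.2 (w, 0)).bind fun x1 => (cut x1.2 d).bind fun x2 =>
    (cut x2.2 (8 * n.1, 8 * n.2)).bind fun x3 =>
    (cut Y lo).bind fun y => (cut y.2 (w, 0)).bind fun y1 =>
    (cut y1.2 (4 * n.1, 4 * n.2)).bind fun y2 =>
    (loc q (stp g x1.1 ++ dub (dub (dub [hd x3.1 g])), stp g y1.1 ++ dub (dub [hd y2.1 (-g)]))).bind
      fun o =>
      if o.1 = o.1.take 4 ++ (sh (1, 0) (stp g x1.1) ++
            (dub (dub [hd [((1, 0), o.1.reverse)] (-g)])).reverse) ∧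
          o.2 = o.2.take 4 ++ sh (1, 0) (stp g y1.1) ∧ (o.1.take 4).length = (o.2.take 4).length ∧
          16 ≤ lco q ∧ eqv x1.1 [((1, 0), stp g x1.1)] ∧ eqv y1.1 [((1, 0), stp g y1.1)] ∧
          eqv x3.1 [((8 * n.1, 8 * n.2), [hd x3.1 g])] ∧
          eqv y2.1 [((4 * n.1, 4 * n.2), [hd y2.1 (-g)])] then
        some (x.1 ++ (n, o.1.take 4) :: ((1, 0), sh n (stp g x1.1)) ::
            (revL [((4 * n.1, 4 * n.2), [hd [((1, 0), o.1.reverse)] (-g)])] ++ (x2.1 ++ x3.2)),
          y.1 ++ (n, o.2.take 4) :: ((1, 0), sh n (stp g y1.1)) :: y2.2)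
      else none

def cst : Op2 → Af × Af
  | .b p => (p.a, cof p.k p.a p.b)
  | .lc _ _ q => ((1, 0), (lco q, 0))
  | .lp _ n d _ _ q => (n, (lco q - 16 + 8 * d.1 + 16 * n.1, 8 * d.2 + 16 * n.2))

lemma av_one (r : ℕ) : av r (1, 0) = 1 := by simp [av]

lemma step2_spec (r : ℕ) {p : Op2} {X Y : List Sg} {o : List Sg × List Sg}
    (h : step2 p X Y = some o) :
    Rch (av r (cst p).1 * av r (cst p).2) (den r X) (den r Y) (den r o.1) (den r o.2) := by
  cases p with
  | b p => exact step_spec r h
  | lc lo k q =>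
    obtain ⟨x, e1, h⟩ := Option.bind_eq_some_iff.1 h
    obtain ⟨x', e2, h⟩ := Option.bind_eq_some_iff.1 h
    obtain ⟨y, e3, h⟩ := Option.bind_eq_some_iff.1 h
    obtain ⟨y', e4, h⟩ := Option.bind_eq_some_iff.1 h
    obtain ⟨z, e5, h⟩ := Option.bind_eq_some_iff.1 h
    split_ifs at h with h1
    cases h
    rw [Bool.and_eq_true] at h1
    obtain ⟨a1, b1⟩ := cut_spec r e1
    obtain ⟨a2, -⟩ := cut_spec r e2
    obtain ⟨a3, b3⟩ := cut_spec r e3
    obtain ⟨a4, -⟩ := cut_spec r e4
    exact ((loc_spec (ev r 0) q _ _ e5).ctx _ _ (den r x'.2) (den r y'.2) (b1.trans b3.symm)).cast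
      (by simp [cst, av]) (by rw [a1, a2, eqv_spec r h1.1]; simp [den, av_one, sbk_one])
      (by rw [a3, a4, eqv_spec r h1.2]; simp [den, av_one, sbk_one])
      (by simp [den_append, den, av_one, sbk_one]) (by simp [den_append, den, av_one, sbk_one])
  | lp lo n d w g q =>
    by_cases h0 : n = (0, 0)
    · rw [step2, if_pos h0] at h
      cases h; exact (Rch.refl _ _).cast (by simp [cst, h0, av]) rfl rfl rfl rfl
    rw [step2, if_neg h0] at h
    obtain ⟨x, e1, h⟩ := Option.bind_eq_some_iff.1 h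
    obtain ⟨x1, e2, h⟩ := Option.bind_eq_some_iff.1 h
    obtain ⟨x2, e3, h⟩ := Option.bind_eq_some_iff.1 h
    obtain ⟨x3, e4, h⟩ := Option.bind_eq_some_iff.1 h
    obtain ⟨y, e5, h⟩ := Option.bind_eq_some_iff.1 h
    obtain ⟨y1, e6, h⟩ := Option.bind_eq_some_iff.1 h
    obtain ⟨y2, e7, h⟩ := Option.bind_eq_some_iff.1 h
    obtain ⟨z, e8, h⟩ := Option.bind_eq_some_iff.1 h
    split_ifs at h with h1
    cases h
    obtain ⟨c1, c2, c3, c4, c5, c6, c7, c8⟩ := h1
    obtain ⟨a1, b1⟩ := cut_spec r e1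
    obtain ⟨a2, -⟩ := cut_spec r e2
    obtain ⟨a3, b3⟩ := cut_spec r e3
    obtain ⟨a4, -⟩ := cut_spec r e4
    obtain ⟨a5, b5⟩ := cut_spec r e5
    obtain ⟨a6, -⟩ := cut_spec r e6
    obtain ⟨a7, -⟩ := cut_spec r e7
    have k8 : av r (8 * n.1, 8 * n.2) = 2 * (2 * (2 * av r n)) := by simp only [av]; ring
    have k4 : av r (4 * n.1, 4 * n.2) = 2 * (2 * av r n) := by simp only [av]; ring
    have d5 := eqv_spec r c5
    have d6 := eqv_spec r c6
    have d7 := eqv_spec r c7
    have d8 := eqv_spec r c8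
    simp only [den, av_one, sbk_one, List.append_nil, k8, k4, ← sbk_dub] at d5 d6 d7 d8
    generalize hd [((1, 0), z.1.reverse)] (-g) = u at *
    have key := rch_loop (lco q - 16) (fun i => (z.1.take 4).map (ev r i))
      (fun i => (z.2.take 4).map (ev r i)) (fun i => (stp g x1.1).map (ev r i))
      (fun i => (stp g y1.1).map (ev r i)) (fun i => (dub (dub (dub [hd x3.1 g]))).map (ev r i))
      (fun i => (dub (dub [hd y2.1 (-g)])).map (ev r i)) (fun i => (dub (dub [u])).map (ev r i))
      (fun i => by simpa using c3) (fun i => by simp [dub, sh])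
      (fun i => by simp [dub, sh]) (fun i => (loc_spec (ev r i) q _ _ e8).cast (by omega)
        (by simp) (by simp)
        (by rw [c1, List.map_append, List.map_append, sh_ev, av_one, add_comm 1, List.map_reverse,
          ← c1])
        (by rw [c2, List.map_append, sh_ev, av_one, add_comm 1, ← c2]))
      (den r x2.1) (av r n) (den r x3.2) (den r y2.2)
    refine (key.ctx _ _ [] [] (b1.trans b5.symm)).cast ?_ ?_ ?_ ?_ ?_
    · simp only [cst, b3, av]; ring
    · rw [a1, a2, a3, a4, d5, d7]; simp [sbk]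
    · rw [a5, a6, a7, d6, d8]; simp [sbk]
    · simp only [den_append, den, den_revL, av_one, sbk_one, sh_ev, k4, ← sbk_dub]; simp [sbk]
    · simp only [den_append, den, av_one, sbk_one, sh_ev]; simp [sbk]

def exe2 : List Op2 → List Sg → List Sg → Option (List Sg × List Sg)
  | [], X, Y => some (X, Y)
  | p :: l, X, Y => (step2 p X Y).bind fun o => exe2 l o.1 o.2

theorem exe2_realize : True := by have := @exe2.eq_def; trivial

def tot2 : List Op2 → ℕ × ℕ × ℕ
  | [] => (0, 0, 0)
  | p :: l => ((cst p).1.1 * (cst p).2.1 + (tot2 l).1,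
      (cst p).1.1 * (cst p).2.2 + (cst p).1.2 * (cst p).2.1 + (tot2 l).2.1,
      (cst p).1.2 * (cst p).2.2 + (tot2 l).2.2)

theorem tot2_realize : True := by have := @tot2.eq_def; trivial

def pv (r : ℕ) (c : ℕ × ℕ × ℕ) : ℕ := c.1 + c.2.1 * r + c.2.2 * (r * r)

lemma exe2_spec (r : ℕ) (l : List Op2) : ∀ (X Y : List Sg) (o : List Sg × List Sg),
    exe2 l X Y = some o → Rch (pv r (tot2 l)) (den r X) (den r Y) (den r o.1) (den r o.2) := by
  induction l with
  | nil => intro X Y o h; cases h; exact (Rch.refl _ _).cast (by simp [tot2, pv]) rfl rfl rfl rfl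
  | cons p l ih =>
    intro X Y o h
    obtain ⟨z, e, h⟩ := Option.bind_eq_some_iff.1 h
    exact ((step2_spec r e).trans (ih _ _ _ h)).cast (by simp only [tot2, av, pv]; ring)
      rfl rfl rfl rfl

/-- run `p` from the start, call `f`, and meet the run of `q` from the end -/
def chk2 (s e : List Sg × List Sg) (p : List Op2)
    (f : List Sg → List Sg → Option (List Sg × List Sg)) (q : List Op2) (c : ℕ × ℕ × ℕ) : Bool :=
  match (exe2 p s.1 s.2).bind fun a => f a.1 a.2, exe2 q e.1 e.2 with
  | some b, some z => eqv b.1 z.1 && eqv b.2 z.2 && ((tot2 p).1 + (tot2 q).1,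
      (tot2 p).2.1 + (tot2 q).2.1, (tot2 p).2.2 + (tot2 q).2.2) == c
  | _, _ => false

/-- the call `f` is justified at cost `k` -/
def Just (r k : ℕ) (f : List Sg → List Sg → Option (List Sg × List Sg)) : Prop :=
  ∀ X Y o, f X Y = some o → Rch k (den r X) (den r Y) (den r o.1) (den r o.2)

lemma chk2_spec {r k : ℕ} {s e : List Sg × List Sg} {p q : List Op2}
    {f : List Sg → List Sg → Option (List Sg × List Sg)} {c : ℕ × ℕ × ℕ}
    (h : chk2 s e p f q c = true) (hf : Just r k f) :
    Rch (k + pv r c) (den r s.1) (den r s.2) (den r e.1) (den r e.2) := by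
  unfold chk2 at h
  split at h
  · rename_i b z e1 e2
    obtain ⟨a, e3, e4⟩ := Option.bind_eq_some_iff.1 e1
    simp only [Bool.and_eq_true, beq_iff_eq] at h
    exact (((exe2_spec r p _ _ _ e3).trans (hf _ _ _ e4)).trans
      ((exe2_spec r q _ _ _ e2).symm.cast rfl (eqv_spec r h.1.1).symm (eqv_spec r h.1.2).symm
        rfl rfl)).cast (by rw [← h.2]; simp only [pv]; ring) rfl rfl rfl rfl
  · cases h

lemma just_id (r : ℕ) : Just r 0 fun X Y => some (X, Y) := by
  intro X Y o h; cases h; exact .refl _ _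

def chkG (n : Af) := chk2 ([(n, [(1, 0, 2)])], [(n, [(2, 0, 2)])])
  ([(n, [(2 * n.1, 2 * n.2, -2)])], [(n, [(2 * n.1 - 1, 2 * n.2, -2)])])

lemma good_of_chkG {r k : ℕ} {n : Af} {p q : List Op2}
    {f : List Sg → List Sg → Option (List Sg × List Sg)} {c : ℕ × ℕ × ℕ}
    (h : chkG n p f q c = true) (hf : Just r k f) : Good (2 * av r n) (k + pv r c) := by
  have h1 := chk2_spec h hf
  simp only [den, sbk, List.map_cons, List.map_nil, fl_single, List.append_nil] at h1
  refine good_of_rch (h1.cast rfl ?_ ?_ ?_ ?_) <;>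
    exact List.map_congr_left fun i _ => by simp only [ev, av]; push_cast; ring

/-! ### the two hypotheses that are called -/

def fx (A : List ℤ) : List ℤ := A.take 1 ++ ((A.drop 2).take 1 ++ A.drop 4)
def fy (A B : List ℤ) : List ℤ := (A.drop 1).take 1 ++ ((A.drop 3).take 1 ++ B)

/-- reversal of the wires that remain when a lens of four wires is removed -/
def LH (m c : ℕ) : Prop := ∀ A B : List ℤ, A.length = m + 4 → B.length = m →
  Rch c (fx A) (fy A B) (fx A.reverse) (fy A.reverse B.reverse)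

/-- reversal of an odd number of wires -/
def RH (h c : ℕ) : Prop := ∀ A B : List ℤ, A.length = h + 1 → B.length = h →
  Rch c A B A.reverse B.reverse

lemma fxy {a b c d : List ℤ} (ha : a.length = 1) (hb : b.length = 1) (hc : c.length = 1)
    (hd : d.length = 1) (E B : List ℤ) : fx (a ++ (b ++ (c ++ (d ++ E)))) = a ++ (c ++ E) ∧
      fy (a ++ (b ++ (c ++ (d ++ E)))) B = b ++ (d ++ B) := by
  obtain ⟨_, rfl⟩ := List.length_eq_one_iff.1 ha
  obtain ⟨_, rfl⟩ := List.length_eq_one_iff.1 hb
  obtain ⟨_, rfl⟩ := List.length_eq_one_iff.1 hc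
  obtain ⟨_, rfl⟩ := List.length_eq_one_iff.1 hd
  simp [fx, fy]

def spl (A B : List Sg) : Option (List Sg × List Sg) :=
  (cut A (1, 0)).bind fun a => (cut a.2 (1, 0)).bind fun b => (cut b.2 (1, 0)).bind fun c =>
    (cut c.2 (1, 0)).map fun d => (a.1 ++ (c.1 ++ d.2), b.1 ++ (d.1 ++ B))

lemma spl_spec (r : ℕ) {A B : List Sg} {o : List Sg × List Sg} (h : spl A B = some o) :
    den r o.1 = fx (den r A) ∧ den r o.2 = fy (den r A) (den r B) := by
  obtain ⟨a, e1, h⟩ := Option.bind_eq_some_iff.1 h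
  obtain ⟨b, e2, h⟩ := Option.bind_eq_some_iff.1 h
  obtain ⟨c, e3, h⟩ := Option.bind_eq_some_iff.1 h
  obtain ⟨d, e4, rfl⟩ := Option.map_eq_some_iff.1 h
  obtain ⟨a1, b1⟩ := cut_spec r e1
  obtain ⟨a2, b2⟩ := cut_spec r e2
  obtain ⟨a3, b3⟩ := cut_spec r e3
  obtain ⟨a4, b4⟩ := cut_spec r e4
  rw [av_one] at b1 b2 b3 b4
  have := fxy b1 b2 b3 b4 (den r d.2) (den r B)
  rw [a1, a2, a3, a4, this.1, this.2]
  simp only [den_append, and_self]

def callL (m : Af) (X Y : List Sg) : Option (List Sg × List Sg) :=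
  (cut X (1, 0)).bind fun a => (cut a.2 (1, 0)).bind fun c => (cut c.2 m).bind fun A =>
  (cut Y (1, 0)).bind fun b => (cut b.2 (1, 0)).bind fun d => (cut d.2 m).bind fun B =>
    (spl (revL (a.1 ++ (b.1 ++ (c.1 ++ (d.1 ++ A.1))))) (revL B.1)).map fun o =>
      (o.1 ++ A.2, o.2 ++ B.2)

lemma just_callL {r k : ℕ} {m : Af} (hm : LH (av r m) k) : Just r k (callL m) := by
  intro X Y o h
  obtain ⟨a, e1, h⟩ := Option.bind_eq_some_iff.1 h
  obtain ⟨c, e2, h⟩ := Option.bind_eq_some_iff.1 h
  obtain ⟨A, e3, h⟩ := Option.bind_eq_some_iff.1 h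
  obtain ⟨b, e4, h⟩ := Option.bind_eq_some_iff.1 h
  obtain ⟨d, e5, h⟩ := Option.bind_eq_some_iff.1 h
  obtain ⟨B, e6, h⟩ := Option.bind_eq_some_iff.1 h
  obtain ⟨z, e7, rfl⟩ := Option.map_eq_some_iff.1 h
  obtain ⟨a1, b1⟩ := cut_spec r e1
  obtain ⟨a2, b2⟩ := cut_spec r e2
  obtain ⟨a3, b3⟩ := cut_spec r e3
  obtain ⟨a4, b4⟩ := cut_spec r e4
  obtain ⟨a5, b5⟩ := cut_spec r e5
  obtain ⟨a6, b6⟩ := cut_spec r e6
  obtain ⟨a7, b7⟩ := spl_spec r e7
  rw [av_one] at b1 b2 b4 b5
  simp only [den_revL, den_append] at a7 b7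
  have := fxy b1 b4 b2 b5 (den r A.1) (den r B.1)
  have key := hm (den r a.1 ++ (den r b.1 ++ (den r c.1 ++ (den r d.1 ++ den r A.1)))) (den r B.1)
    (by simp [b1, b2, b3, b4, b5]; omega) b6
  rw [this.1, this.2, ← a7, ← b7] at key
  exact (key.ctx [] [] (den r A.2) (den r B.2) rfl).cast rfl (by simp [a1, a2, a3])
    (by simp [a4, a5, a6]) (by simp [den_append]) (by simp [den_append])

def callR (h : Af) (X Y : List Sg) : Option (List Sg × List Sg) :=
  (cut X (h.1 + 1, h.2)).bind fun A => (cut Y h).map fun B => (revL A.1 ++ A.2, revL B.1 ++ B.2)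

lemma just_callR {r k : ℕ} {m : Af} (hm : RH (av r m) k) : Just r k (callR m) := by
  intro X Y o h
  obtain ⟨A, e1, h⟩ := Option.bind_eq_some_iff.1 h
  obtain ⟨B, e2, rfl⟩ := Option.map_eq_some_iff.1 h
  obtain ⟨a1, b1⟩ := cut_spec r e1
  obtain ⟨a2, b2⟩ := cut_spec r e2
  exact ((hm _ _ (by rw [b1]; simp only [av]; ring) b2).ctx [] [] (den r A.2) (den r B.2) rfl).cast
    rfl (by simp [a1]) (by simp [a2]) (by simp [den_append, den_revL])
    (by simp [den_append, den_revL])

def chkL (m : Af) (p : List Op2) (f : List Sg → List Sg → Option (List Sg × List Sg))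
    (q : List Op2) (c : ℕ × ℕ × ℕ) : Bool :=
  match spl [((m.1 + 4, m.2), [(1, 0, 1)])] [(m, [(0, 0, -1)])],
    spl (revL [((m.1 + 4, m.2), [(1, 0, 1)])]) (revL [(m, [(0, 0, -1)])]) with
  | some s, some e => chk2 s e p f q c
  | _, _ => false

lemma lh_of_chkL {r k : ℕ} {m : Af} {p q : List Op2}
    {f : List Sg → List Sg → Option (List Sg × List Sg)} {c : ℕ × ℕ × ℕ}
    (h : chkL m p f q c = true) (hf : Just r k f) : LH (av r m) (k + pv r c) := by
  unfold chkL at h
  split at h
  · rename_i s e e1 e2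
    intro A B hA hB
    have h1 := (chk2_spec h hf).map fun z => if 0 < z then A.getD (z - 1).toNat 0
      else B.getD (-z).toNat 0
    obtain ⟨a1, a2⟩ := spl_spec r e1
    obtain ⟨a3, a4⟩ := spl_spec r e2
    rw [a1, a2, a3, a4] at h1
    simp only [den_revL, fx, fy, List.map_append, List.map_take, List.map_drop,
      List.map_reverse] at h1
    simp only [den, sbk, List.map_cons, List.map_nil, fl_single, List.append_nil, List.map_map,
      show av r (m.1 + 4, m.2) = av r m + 4 by simp only [av]; ring] at h1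
    have eA : (List.range (av r m + 4)).map ((fun z => if 0 < z then A.getD (z - 1).toNat 0
        else B.getD (-z).toNat 0) ∘ fun i => ev r i (1, 0, 1)) = A := by
      refine List.ext_getElem (by simp [hA]) fun i h2 h3 => ?_
      simp only [List.getElem_map, List.getElem_range, Function.comp, ev]
      rw [if_pos (by omega), show (1 + 0 * (r : ℤ) + i * 1 - 1).toNat = i by omega,
        List.getD_eq_getElem _ _ h3]
    have eB : (List.range (av r m)).map ((fun z => if 0 < z then A.getD (z - 1).toNat 0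
        else B.getD (-z).toNat 0) ∘ fun i => ev r i (0, 0, -1)) = B := by
      refine List.ext_getElem (by simp [hB]) fun i h2 h3 => ?_
      simp only [List.getElem_map, List.getElem_range, Function.comp, ev]
      rw [if_neg (by omega), show (-(0 + 0 * (r : ℤ) + i * -1)).toNat = i by omega,
        List.getD_eq_getElem _ _ h3]
    rw [eA, eB] at h1
    exact h1
  · cases h

/-! ### from words to rows -/

lemma range_split (f : ℕ → ℤ) (i m : ℕ) : (List.range (i + 1 + m)).map f =
    (List.range i).map f ++ f i :: (List.range m).map fun j => f (i + 1 + j) := by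
  rw [List.range_add, List.range_succ]; simp

lemma rch_of_word (h : ℕ) (w : List ℕ) (hw : Inb (2 * h + 1) w) : ∀ g : ℕ → ℤ,
    Rch (cost w) ((List.range (h + 1)).map fun i => g (2 * i + 1))
      ((List.range h).map fun i => g (2 * i + 2))
      ((List.range (h + 1)).map fun i => g (pr w (2 * i + 1)))
      ((List.range h).map fun i => g (pr w (2 * i + 2))) := by
  induction w with
  | nil => intro g; exact .refl _ _
  | cons k w ih =>
    intro g
    obtain ⟨hk, hw⟩ := inb_cons.1 hw
    refine (Rch.trans (c := if k % 2 = 0 then 1 else 0) ?_ (ih hw fun p => g (s k p))).cast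
      (by rw [cost_cons, add_comm]) rfl rfl rfl rfl
    obtain ⟨i, m, rfl, hi⟩ : ∃ i m, h = i + 1 + m ∧ (k = 2 * i + 1 ∨ k = 2 * i + 2) :=
      ⟨(k - 1) / 2, h - 1 - (k - 1) / 2, by omega, by omega⟩
    have e : ∀ (n : ℕ) (u : ℕ → ℕ), (∀ j < n, u j ≠ k ∧ u j ≠ k + 1) →
        (List.range n).map (fun j => g (s k (u j))) = (List.range n).map fun j => g (u j) :=
      fun n u hu => List.map_congr_left fun j hj => by
        have := hu j (List.mem_range.1 hj)
        rw [s_apply, if_neg this.1, if_neg this.2]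
    rw [show i + 1 + m + 1 = i + 1 + (0 + 1 + m) by ring]
    simp only [range_split, List.range_zero, List.map_nil, List.nil_append]
    rw [e i _ fun j hj => by omega, e i _ fun j hj => by omega, e m _ fun j hj => by omega,
      e m _ fun j hj => by omega]
    rcases hi with rfl | rfl
    · rw [if_neg (by omega)]
      refine (Rch.flip _ _ _ _ _ _ (by simp)).cast rfl rfl rfl ?_ ?_ <;>
      · simp [s_apply, mul_add]
    · rw [if_pos (by omega)]
      refine (((Rch.flip _ _ _ _ _ _ (by simp)).trans (Rch.swap _ _ _ _ _)).trans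
        (Rch.flip _ _ _ _ _ _ (by simp))).cast rfl rfl rfl ?_ ?_ <;>
      · simp [s_apply, mul_add]

lemma rh_of_good {h c : ℕ} (hg : Good (2 * h + 1 + 1) c) : ∃ k, k + h ≤ c ∧ RH h k := by
  obtain ⟨w, h1, h2, h3⟩ := good_remove (by omega) hg
  refine ⟨cost w, by omega, fun A B hA hB => ?_⟩
  refine (rch_of_word h w h1 fun p => if p % 2 = 1 then A.getD (p / 2) 0
    else B.getD (p / 2 - 1) 0).cast rfl ?_ ?_ ?_ ?_
  all_goals
    refine List.ext_getElem (by simp [hA, hB]) fun i h4 h5 => ?_
    simp only [List.length_map, List.length_range] at h4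
    simp only [List.getElem_map, List.getElem_range, h2, rv_apply, List.getElem_reverse]
  · rw [if_pos (by omega), show (2 * i + 1) / 2 = i by omega, List.getD_eq_getElem _ _ h5]
  · rw [if_neg (by omega), show (2 * i + 2) / 2 - 1 = i by omega, List.getD_eq_getElem _ _ h5]
  · rw [if_pos (show 1 ≤ 2 * i + 1 ∧ 2 * i + 1 ≤ 2 * h + 1 by omega), if_pos (by omega),
      show (2 * h + 1 + 1 - (2 * i + 1)) / 2 = A.length - 1 - i by omega, List.getD_eq_getElem]
  · rw [if_pos (show 1 ≤ 2 * i + 2 ∧ 2 * i + 2 ≤ 2 * h + 1 by omega), if_neg (by omega),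
      show (2 * h + 1 + 1 - (2 * i + 2)) / 2 - 1 = B.length - 1 - i by omega, List.getD_eq_getElem]

def ins2 (r m : ℕ) : Op2 → Op2
  | .b p => .b (ins r m p)
  | .lc lo k q => .lc (ia r m lo) k q
  | .lp lo n d w g q => .lp (ia r m lo) (ia r m n) (ia r m d) w g q

end Pool.Agent.P.MP_894816_co
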