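import Pool.Agent.P.MP_894816_co.Words

namespace Pool.Agent.P.MP_894816_co

open Equiv List

/-- Two rows of balls; exchanging the two balls of a column is free, exchanging two neighbours
of the first row costs one. -/
inductive Rch : ℕ → List ℤ → List ℤ → List ℤ → List ℤ → Prop
  | refl (X Y : List ℤ) : Rch 0 X Y X Y
  | flip (P Q X Y : List ℤ) (a b : ℤ) (h : P.length = Q.length) :
      Rch 0 (P ++ a :: X) (Q ++ b :: Y) (P ++ b :: X) (Q ++ a :: Y)
  | swap (P X Y : List ℤ) (a b : ℤ) : Rch 1 (P ++ a :: b :: X) Y (P ++ b :: a :: X) Y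
  | trans {c d : ℕ} {X Y X' Y' X'' Y'' : List ℤ} :
      Rch c X Y X' Y' → Rch d X' Y' X'' Y'' → Rch (c + d) X Y X'' Y''

lemma Rch.cast {c d : ℕ} {X Y Z W X' Y' Z' W' : List ℤ} (h : Rch c X Y Z W) (hc : c = d)
    (h1 : X = X') (h2 : Y = Y') (h3 : Z = Z') (h4 : W = W') : Rch d X' Y' Z' W' := by
  subst hc h1 h2 h3 h4; exact h

lemma Rch.len {c : ℕ} {X Y Z W : List ℤ} (h : Rch c X Y Z W) :
    Z.length = X.length ∧ W.length = Y.length := by
  induction h with
  | refl => exact ⟨rfl, rfl⟩
  | flip => simp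
  | swap => simp
  | trans _ _ i1 i2 => exact ⟨i2.1.trans i1.1, i2.2.trans i1.2⟩

lemma Rch.symm {c : ℕ} {X Y Z W : List ℤ} (h : Rch c X Y Z W) : Rch c Z W X Y := by
  induction h with
  | refl => exact .refl _ _
  | flip P Q X Y a b h => exact .flip P Q X Y b a h
  | swap P X Y a b => exact .swap P X Y b a
  | trans _ _ i1 i2 => exact (i2.trans i1).cast (add_comm _ _) rfl rfl rfl rfl

lemma Rch.ctx {c : ℕ} {X Y Z W : List ℤ} (h : Rch c X Y Z W) (A B S T : List ℤ)
    (hl : A.length = B.length) :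
    Rch c (A ++ (X ++ S)) (B ++ (Y ++ T)) (A ++ (Z ++ S)) (B ++ (W ++ T)) := by
  induction h with
  | refl => exact .refl _ _
  | flip P Q X Y a b h =>
    exact (Rch.flip (A ++ P) (B ++ Q) (X ++ S) (Y ++ T) a b (by simp [h, hl])).cast rfl
      (by simp) (by simp) (by simp) (by simp)
  | swap P X Y a b =>
    exact (Rch.swap (A ++ P) (X ++ S) (B ++ (Y ++ T)) a b).cast rfl (by simp) rfl (by simp) rfl
  | trans _ _ i1 i2 => exact i1.trans i2

lemma Rch.rev {c : ℕ} {X Y Z W : List ℤ} (h : Rch c X Y Z W) (hl : X.length = Y.length) :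
    Rch c X.reverse Y.reverse Z.reverse W.reverse := by
  induction h with
  | refl => exact .refl _ _
  | flip P Q X Y a b h =>
    exact (Rch.flip X.reverse Y.reverse P.reverse Q.reverse a b (by simp at hl ⊢; omega)).cast rfl
      (by simp) (by simp) (by simp) (by simp)
  | swap P X Y a b =>
    exact (Rch.swap X.reverse P.reverse Y.reverse b a).cast rfl (by simp) rfl (by simp) rfl
  | trans h1 _ i1 i2 => exact (i1 hl).trans (i2 (by rw [h1.len.1, h1.len.2, hl]))

lemma rch_flips (A : List ℤ) : ∀ (B P Q X Y : List ℤ), A.length = B.length → P.length = Q.length →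
    Rch 0 (P ++ (A ++ X)) (Q ++ (B ++ Y)) (P ++ (B ++ X)) (Q ++ (A ++ Y)) := by
  induction A with
  | nil => intro B P Q X Y h _; obtain rfl := List.length_eq_zero_iff.1 h.symm; exact .refl _ _
  | cons a A ih =>
    intro B P Q X Y h h'
    obtain _ | ⟨b, B⟩ := B
    · simp at h
    exact (Rch.flip P Q (A ++ X) (B ++ Y) a b h').trans
      ((ih B (P ++ [b]) (Q ++ [a]) X Y (by simpa using h) (by simp [h'])).cast rfl
        (by simp) (by simp) (by simp) (by simp))

lemma rch_up (u : ℤ) (D : List ℤ) : ∀ (P X Y : List ℤ),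
    Rch D.length (P ++ u :: (D ++ X)) Y (P ++ (D ++ u :: X)) Y := by
  induction D with
  | nil => intro P X Y; exact .refl _ _
  | cons d D ih =>
    intro P X Y
    exact ((Rch.swap P (D ++ X) Y u d).trans ((ih (P ++ [d]) X Y).cast rfl (by simp) rfl rfl
      rfl)).cast (by simp [add_comm]) rfl rfl (by simp) rfl

lemma rch_pass (U D : List ℤ) : ∀ (P X Y : List ℤ),
    Rch (U.length * D.length) (P ++ (U ++ (D ++ X))) Y (P ++ (D ++ (U ++ X))) Y := by
  induction U with
  | nil => intro P X Y; exact (Rch.refl _ _).cast (by simp) rfl rfl (by simp) rfl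
  | cons u U ih =>
    intro P X Y
    exact (((ih (P ++ [u]) X Y).cast rfl rfl rfl (by simp) rfl).trans
      (rch_up u D P (U ++ X) Y)).cast (by simp [add_mul]) (by simp) rfl rfl rfl

/-- interleaving -/
def il {α : Type} : List α → List α → List α
  | a :: A, b :: B => a :: b :: il A B
  | _, _ => []

lemma rch_unzip (V : List ℤ) : ∀ (x y M P Q S T : List ℤ), x.length = V.length →
    y.length = V.length → Q.length = P.length + V.length + M.length →
    Rch (V.length * M.length + V.length * V.length) (P ++ (V.reverse ++ (M ++ (x ++ T))))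
      (Q ++ (y ++ S)) (P ++ (M ++ (il x y ++ T))) (Q ++ (V ++ S)) := by
  induction V with
  | nil =>
    intro x y M P Q S T h1 h2 _
    obtain rfl := List.length_eq_zero_iff.1 h1
    obtain rfl := List.length_eq_zero_iff.1 h2
    exact (Rch.refl _ _).cast (by simp) rfl rfl (by simp [il]) rfl
  | cons u V ih =>
    intro x y M P Q S T h1 h2 h3
    obtain _ | ⟨a, x⟩ := x
    · simp at h1
    obtain _ | ⟨b, y⟩ := y
    · simp at h2
    simp only [List.length_cons] at h1 h2 h3
    have s1 := rch_up u (M ++ [a]) (P ++ V.reverse) (x ++ T) (Q ++ b :: (y ++ S))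
    have s2 := Rch.flip (P ++ V.reverse ++ (M ++ [a])) Q (x ++ T) (y ++ S) u b (by simp; omega)
    have s3 := ih x y (M ++ [a, b]) P (Q ++ [u]) S T (by omega) (by omega) (by simp; omega)
    exact (((s1.cast rfl rfl rfl (by simp) rfl).trans s2).trans
      (s3.cast rfl (by simp) (by simp) rfl rfl)).cast (by simp; ring) (by simp) (by simp)
      (by simp [il]) (by simp)

lemma rch_belt (V : List ℤ) : ∀ (D A B Yb Xb Yc Xc Q S T : List ℤ), D.length = V.length →
    Xb.length = Yb.length + 1 → Q.length = A.length + V.length → Yc.length = Yb.length →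
    Yc.reverse ++ Xc = (Yb.reverse ++ Xb).rotate V.length →
    Rch (V.length * (V.length + B.length + 2 * Yb.length))
      (A ++ (V.reverse ++ (Yb ++ (B ++ (D ++ T))))) (Q ++ (Xb ++ S))
      (A ++ (D ++ (Yc ++ (V.reverse ++ (B ++ T))))) (Q ++ (Xc ++ S)) := by
  induction V with
  | nil =>
    intro D A B Yb Xb Yc Xc Q S T h1 _ _ h4 h5
    obtain rfl := List.length_eq_zero_iff.1 h1
    obtain ⟨e1, rfl⟩ := List.append_inj (h5.trans (List.rotate_zero _)) (by simp [h4])
    obtain rfl := List.reverse_injective e1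
    exact (Rch.refl _ _).cast (by simp) rfl rfl (by simp) rfl
  | cons u V ih =>
    intro D A B Yb Xb Yc Xc Q S T h1 h2 h3 h4 h5
    obtain _ | ⟨d, D⟩ := D
    · simp at h1
    obtain _ | ⟨x0, Xt⟩ := Xb
    · simp at h2
    obtain ⟨Y', yl, e⟩ : ∃ Y' yl, x0 :: Yb = Y' ++ [yl] :=
      ⟨_, _, (List.dropLast_append_getLast (List.cons_ne_nil _ _)).symm⟩
    have hl : Y'.length = Yb.length := by simpa using (congrArg List.length e).symm
    simp only [List.length_cons] at h1 h2 h3 h5
    have s1 := rch_pass (V.reverse ++ u :: (Yb ++ B)) [d] A (D ++ T) (Q ++ (x0 :: Xt ++ S))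
    have s2 := rch_flips Yb Xt (A ++ d :: V.reverse ++ [u]) (Q ++ [x0]) (B ++ (D ++ T)) S
      (by omega) (by simp; omega)
    have s3 := rch_up u Xt (A ++ d :: V.reverse) (B ++ (D ++ T)) (Q ++ (Y' ++ yl :: S))
    have s4 := rch_flips Xt Y' (A ++ d :: V.reverse) Q (u :: (B ++ (D ++ T))) (yl :: S)
      (by omega) (by simp; omega)
    have s5 := ih D (A ++ [d]) (u :: B) Y' (Xt ++ [yl]) Yc Xc Q S T (by omega) (by simp; omega)
      (by simp; omega) (by omega) (by
        have e2 : Yb.reverse ++ x0 :: Xt = yl :: (Y'.reverse ++ Xt) := by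
          have := congrArg List.reverse e
          simp only [List.reverse_cons, List.reverse_append, List.reverse_nil, List.nil_append,
            List.singleton_append] at this
          rw [← List.singleton_append, ← List.append_assoc, this]; rfl
        rw [h5, e2, List.rotate_cons_succ, List.append_assoc])
    have e3 : Q ++ [x0] ++ (Yb ++ S) = Q ++ (Y' ++ yl :: S) := by
      rw [List.append_assoc, ← List.append_assoc [x0], List.singleton_append, e]; simp
    exact (((((s1.cast rfl rfl rfl (by simp) (by simp)).trans s2).cast rfl rfl rfl (by simp)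
      e3).trans s3).trans s4).trans (s5.cast rfl (by simp) (by simp) rfl rfl) |>.cast
      (by simp [hl, show Xt.length = Yb.length by omega]; ring) (by simp) rfl (by simp) rfl

/-! ### from rows to words -/

/-- the permutation `g` shows the rows `X`, `Y` from position `o` on -/
def Rep (g : Perm ℕ) : ℕ → List ℤ → List ℤ → Prop
  | o, a :: X, b :: Y => (g (o + 1) : ℤ) = a ∧ (g (o + 2) : ℤ) = b ∧ Rep g (o + 2) X Y
  | _, [], [] => True
  | _, _, _ => False

lemma rep_congr {g g' : Perm ℕ} (X : List ℤ) : ∀ (Y : List ℤ) (o : ℕ),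
    (∀ p, o < p → p ≤ o + 2 * X.length → g' p = g p) → Rep g o X Y → Rep g' o X Y := by
  induction X with
  | nil => intro Y o _ h; cases Y <;> exact h
  | cons a X ih =>
    intro Y o hg h
    obtain _ | ⟨b, Y⟩ := Y
    · exact h
    simp only [List.length_cons] at hg
    exact ⟨by rw [hg _ (by omega) (by omega), h.1], by rw [hg _ (by omega) (by omega), h.2.1],
      ih Y _ (fun p h1 h2 => hg p (by omega) (by omega)) h.2.2⟩

lemma rep_append {g : Perm ℕ} (P : List ℤ) : ∀ (Q X Y : List ℤ) (o : ℕ), P.length = Q.length →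
    (Rep g o (P ++ X) (Q ++ Y) ↔ Rep g o P Q ∧ Rep g (o + 2 * P.length) X Y) := by
  induction P with
  | nil => intro Q X Y o h; obtain rfl := List.length_eq_zero_iff.1 h.symm; simp [Rep]
  | cons a P ih =>
    intro Q X Y o h
    obtain _ | ⟨b, Q⟩ := Q
    · simp at h
    simp only [List.cons_append, Rep, ih Q X Y (o + 2) (by simpa using h), List.length_cons,
      and_assoc, show o + 2 + 2 * P.length = o + 2 * (P.length + 1) by ring]

lemma rch_word {c : ℕ} {X Y Z W : List ℤ} (h : Rch c X Y Z W) (hl : X.length = Y.length) :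
    ∃ w, Inb (2 * X.length) w ∧ cost w = c ∧ ∀ g, Rep g 0 X Y → Rep (g * pr w) 0 Z W := by
  induction h with
  | refl => exact ⟨[], inb_nil _, rfl, fun g hg => by simpa using hg⟩
  | flip P Q X Y a b h =>
    refine ⟨[2 * P.length + 1], inb_cons.2 ⟨by simp; omega, inb_nil _⟩,
      by rw [cost_cons, if_neg (by omega)]; rfl, fun g hg => ?_⟩
    rw [rep_append _ _ _ _ _ h] at hg ⊢
    simp only [Rep, pr_cons, pr_nil, mul_one, Perm.mul_apply, s_apply, zero_add] at hg ⊢
    refine ⟨rep_congr _ _ _ (fun p h1 h2 => ?_) hg.1, by simp [hg.2.2.1], by simp [hg.2.1],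
      rep_congr _ _ _ (fun p h1 h2 => ?_) hg.2.2.2⟩ <;>
    · rw [Perm.mul_apply, s_apply, if_neg (by omega), if_neg (by omega)]
  | swap P X Y a b =>
    obtain ⟨Q, c, d, Y', rfl, h⟩ : ∃ Q c d Y', Y = Q ++ c :: d :: Y' ∧ P.length = Q.length := by
      simp only [List.length_append, List.length_cons] at hl
      refine ⟨Y.take P.length, Y[P.length], Y[P.length + 1], Y.drop (P.length + 2), ?_,
        by simp; omega⟩
      rw [← List.drop_eq_getElem_cons, ← List.drop_eq_getElem_cons, List.take_append_drop]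
    have e : ∀ p, pr [2 * P.length + 1, 2 * P.length + 2, 2 * P.length + 1] p =
        if p = 2 * P.length + 1 then 2 * P.length + 3 else
          if p = 2 * P.length + 3 then 2 * P.length + 1 else p := fun p => by
      simp only [pr_cons, pr_nil, mul_one, Perm.mul_apply, s_apply]; split_ifs <;> omega
    refine ⟨[2 * P.length + 1, 2 * P.length + 2, 2 * P.length + 1],
      inb_cons.2 ⟨by simp; omega, inb_cons.2 ⟨by simp; omega, inb_cons.2 ⟨by simp; omega,
        inb_nil _⟩⟩⟩, ?_, fun g hg => ?_⟩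
    · rw [cost_cons, cost_cons, cost_cons, if_neg (by omega), if_pos (by omega)]; rfl
    rw [rep_append _ _ _ _ _ h] at hg ⊢
    simp only [Rep, Perm.mul_apply, e, zero_add] at hg ⊢
    refine ⟨rep_congr _ _ _ (fun p h1 h2 => ?_) hg.1, by simp [hg.2.2.2.1], by simp [hg.2.2.1],
      by simp [hg.2.1], by simp [hg.2.2.2.2.1], rep_congr _ _ _ (fun p h1 h2 => ?_) hg.2.2.2.2.2⟩ <;>
    · rw [Perm.mul_apply, e, if_neg (by omega), if_neg (by omega)]
  | trans h1 _ i1 i2 =>
    obtain ⟨v, a1, a2, a3⟩ := i1 hl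
    obtain ⟨w, b1, b2, b3⟩ := i2 (by rw [h1.len.1, h1.len.2, hl])
    rw [h1.len.1] at b1
    exact ⟨v ++ w, inb_append.2 ⟨a1, b1⟩, by rw [cost_append, a2, b2],
      fun g hg => by rw [pr_append, ← mul_assoc]; exact b3 _ (a3 g hg)⟩

lemma rep_map (g : Perm ℕ) (n : ℕ) : ∀ (f h : ℕ → ℤ) (o : ℕ),
    Rep g o ((List.range n).map f) ((List.range n).map h) ↔
      ∀ i < n, (g (o + 2 * i + 1) : ℤ) = f i ∧ (g (o + 2 * i + 2) : ℤ) = h i := by
  induction n with
  | zero => intro f h o; simp [Rep]
  | succ n ih =>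
    intro f h o
    rw [List.range_succ, List.map_append, List.map_append, rep_append _ _ _ _ _ (by simp), ih]
    simp only [List.map_cons, List.map_nil, Rep, List.length_map, List.length_range, and_true]
    exact ⟨fun H i hi => (Nat.lt_succ_iff_lt_or_eq.1 hi).elim (H.1 i) fun e => e ▸ H.2,
      fun H => ⟨fun i hi => H i (by omega), H n (by omega)⟩⟩

lemma good_of_rch {n c : ℕ} (h : Rch c ((List.range n).map fun i : ℕ => 1 + (i : ℤ) * 2)
    ((List.range n).map fun i : ℕ => 2 + (i : ℤ) * 2)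
    ((List.range n).map fun i : ℕ => 2 * (n : ℤ) + (i : ℤ) * (-2))
    ((List.range n).map fun i : ℕ => 2 * (n : ℤ) - 1 + (i : ℤ) * (-2))) : Good (2 * n) c := by
  obtain ⟨w, h1, h2, h3⟩ := rch_word h (by simp)
  simp only [List.length_map, List.length_range] at h1
  refine ⟨w, h1, ?_, h2.le⟩
  have h4 := (rep_map _ _ _ _ _).1 (h3 1 ((rep_map _ _ _ _ _).2 fun i _ => by
    simp only [Perm.one_apply]; omega))
  ext p
  rw [rv_apply]
  split_ifs with hp
  · have := h4 ((p - 1) / 2) (by omega)
    rw [one_mul] at this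
    by_cases h5 : p % 2 = 1
    · rw [show 0 + 2 * ((p - 1) / 2) + 1 = p by omega] at this; omega
    · rw [show 0 + 2 * ((p - 1) / 2) + 2 = p by omega] at this; omega
  · exact pr_fix fun k hk => by have := h1 k hk; omega

end Pool.Agent.P.MP_894816_co
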