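import Pool.Agent.P.MP_894816_co.Sym

namespace Pool.Agent.P.MP_894816_co

/-- width of the window of a move -/
def wid (k : ℕ) (a b : Af) : Af :=
  if k = 1 then (a.1 + b.1, a.2 + b.2) else if k = 2 then (2 * a.1, 2 * a.2)
  else if k = 3 then (2 * a.1 + b.1, 2 * a.2 + b.2) else a

/-- second factor of the cost of a move -/
def cof (k : ℕ) (a b : Af) : Af :=
  if k = 1 then b else if k = 2 then a
  else if k = 3 then (a.1 + 2 * b.1, a.2 + 2 * b.2) else (0, 0)

/-- a move on a window: exchange the rows, pass, unzip, belt, or nothing -/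
def wop (k : ℕ) (a b : Af) (x y : List Sg) : Option (List Sg × List Sg) :=
  if lenL x = wid k a b ∧ lenL y = wid k a b then
    if k = 0 then some (y, x)
    else if k = 1 then (cut x a).map fun u => (u.2 ++ u.1, y)
    else if k = 2 then
      (cut x a).bind fun u => (cut y a).bind fun z => (ilL u.2 z.2).map fun w =>
        (w, z.1 ++ revL u.1)
    else if k = 3 then
      (cut x a).bind fun u => (cut u.2 b).bind fun v => (cut y a).bind fun z =>
        (cut z.2 (b.1 + 1, b.2)).bind fun t => (cut (revL v.1 ++ t.1) a).bind fun c =>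
          (cut (c.2 ++ c.1) b).map fun h => (v.2 ++ (revL h.1 ++ u.1), z.1 ++ (h.2 ++ t.2))
    else some (x, y)
  else none

lemma wop_spec (r : ℕ) {k : ℕ} {a b : Af} {x y : List Sg} {o : List Sg × List Sg}
    (h : wop k a b x y = some o) :
    Rch (av r a * av r (cof k a b)) (den r x) (den r y) (den r o.1) (den r o.2) := by
  unfold wop at h
  split_ifs at h with h0 h1 h2 h3 h4
  all_goals
    have lx := den_len r x
    have ly := den_len r y
    rw [h0.1] at lx
    rw [h0.2] at ly
  · cases h
    exact (rch_flips (den r x) (den r y) [] [] [] [] (lx.trans ly.symm) rfl).cast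
      (by simp [h1, cof, av]) (by simp) (by simp) (by simp) (by simp)
  · obtain ⟨u, e, rfl⟩ := Option.map_eq_some_iff.1 h
    obtain ⟨e1, e2⟩ := cut_spec r e
    have l2 : (den r u.2).length = av r b := by
      rw [e1, List.length_append, e2] at lx
      simp only [h2, wid, if_true, av, add_mul] at lx ⊢; omega
    exact (rch_pass (den r u.1) (den r u.2) [] [] (den r y)).cast (by simp [e2, l2, h2, cof])
      (by simp [e1]) rfl (by simp [den_append]) rfl
  · obtain ⟨u, e, h⟩ := Option.bind_eq_some_iff.1 h
    obtain ⟨z, e', h⟩ := Option.bind_eq_some_iff.1 h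
    obtain ⟨w, e'', rfl⟩ := Option.map_eq_some_iff.1 h
    obtain ⟨e1, e2⟩ := cut_spec r e
    obtain ⟨e3, e4⟩ := cut_spec r e'
    have hw : av r (wid k a b) = 2 * av r a := by simp [h3, wid, av]; ring
    rw [e1, List.length_append, e2, hw] at lx
    rw [e3, List.length_append, e4, hw] at ly
    exact (rch_unzip (den r u.1).reverse (den r u.2) (den r z.2) [] [] (den r z.1) [] []
      (by simp; omega) (by simp; omega) (by simp; omega)).cast (by simp [e2, h3, cof])
      (by simp [e1]) (by simp [e3]) (by simp [ilL_spec r e''])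
      (by simp [den_append, den_revL])
  · obtain ⟨u, e1, h⟩ := Option.bind_eq_some_iff.1 h
    obtain ⟨v, e2, h⟩ := Option.bind_eq_some_iff.1 h
    obtain ⟨z, e3, h⟩ := Option.bind_eq_some_iff.1 h
    obtain ⟨t, e4, h⟩ := Option.bind_eq_some_iff.1 h
    obtain ⟨c, e5, h⟩ := Option.bind_eq_some_iff.1 h
    obtain ⟨g, e6, rfl⟩ := Option.map_eq_some_iff.1 h
    obtain ⟨a1, b1⟩ := cut_spec r e1
    obtain ⟨a2, b2⟩ := cut_spec r e2
    obtain ⟨a3, b3⟩ := cut_spec r e3
    obtain ⟨a4, b4⟩ := cut_spec r e4
    obtain ⟨a5, b5⟩ := cut_spec r e5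
    obtain ⟨a6, b6⟩ := cut_spec r e6
    have hw : av r (wid k a b) = 2 * av r a + av r b := by simp [h4, wid, av]; ring
    have hc : av r (cof k a b) = av r a + 2 * av r b := by simp [h4, cof, av]; ring
    have hb : av r (b.1 + 1, b.2) = av r b + 1 := by simp only [av]; ring
    rw [a1, a2, List.length_append, List.length_append, b1, b2, hw] at lx
    rw [den_append, den_revL] at a5
    rw [den_append] at a6
    exact (rch_belt (den r u.1).reverse (den r v.2) [] [] (den r v.1) (den r t.1)
      (den r g.1).reverse (den r g.2) (den r z.1) (den r t.2) [] (by simp; omega) (by omega)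
      (by simp; omega) (by simp; omega) (by
        rw [a5, List.length_reverse, b1, ← b5, List.rotate_append_length_eq, a6,
          List.reverse_reverse])).cast (by simp [b1, b2, hc])
      (by simp [a1, a2]) (by simp [a3, a4]) (by simp [den_append, den_revL])
      (by simp [den_append])
  · cases h
    exact (Rch.refl _ _).cast (by simp [h2, h3, h4, cof, av]) rfl rfl rfl rfl

/-- kind, start of the window, two sizes, mirror flag, and the result if the move is run
backwards -/
structure Op where
  k : ℕ
  lo : Af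
  a : Af
  b : Af
  mir : Bool
  inv : Option (List Sg × List Sg)

def core (p : Op) (x y : List Sg) : Option (List Sg × List Sg) :=
  match p.inv with
  | none => wop p.k p.a p.b x y
  | some o => (wop p.k p.a p.b o.1 o.2).bind fun z =>
      if eqv z.1 x && eqv z.2 y then some o else none

lemma core_spec (r : ℕ) {p : Op} {x y : List Sg} {o : List Sg × List Sg}
    (h : core p x y = some o) :
    Rch (av r p.a * av r (cof p.k p.a p.b)) (den r x) (den r y) (den r o.1) (den r o.2) := by
  unfold core at h
  split at h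
  · exact wop_spec r h
  · obtain ⟨z, e, h⟩ := Option.bind_eq_some_iff.1 h
    split_ifs at h with h1
    cases h
    rw [Bool.and_eq_true] at h1
    exact (wop_spec r e).symm.cast rfl (eqv_spec r h1.1) (eqv_spec r h1.2) rfl rfl

def step (p : Op) (X Y : List Sg) : Option (List Sg × List Sg) :=
  (cut X p.lo).bind fun x => (cut x.2 (wid p.k p.a p.b)).bind fun x' =>
    (cut Y p.lo).bind fun y => (cut y.2 (wid p.k p.a p.b)).bind fun y' =>
      (if p.mir then (core p (revL x'.1) (revL y'.1)).map fun o => (revL o.1, revL o.2)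
        else core p x'.1 y'.1).map fun o => (x.1 ++ (o.1 ++ x'.2), y.1 ++ (o.2 ++ y'.2))

lemma step_spec (r : ℕ) {p : Op} {X Y : List Sg} {o : List Sg × List Sg}
    (h : step p X Y = some o) :
    Rch (av r p.a * av r (cof p.k p.a p.b)) (den r X) (den r Y) (den r o.1) (den r o.2) := by
  obtain ⟨x, e1, h⟩ := Option.bind_eq_some_iff.1 h
  obtain ⟨x', e2, h⟩ := Option.bind_eq_some_iff.1 h
  obtain ⟨y, e3, h⟩ := Option.bind_eq_some_iff.1 h
  obtain ⟨y', e4, h⟩ := Option.bind_eq_some_iff.1 h
  obtain ⟨z, e5, rfl⟩ := Option.map_eq_some_iff.1 h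
  obtain ⟨a1, b1⟩ := cut_spec r e1
  obtain ⟨a2, b2⟩ := cut_spec r e2
  obtain ⟨a3, b3⟩ := cut_spec r e3
  obtain ⟨a4, b4⟩ := cut_spec r e4
  have key : Rch (av r p.a * av r (cof p.k p.a p.b)) (den r x'.1) (den r y'.1) (den r z.1)
      (den r z.2) := by
    split_ifs at e5
    · obtain ⟨w, e6, rfl⟩ := Option.map_eq_some_iff.1 e5
      exact ((core_spec r e6).rev (by simp [den_revL, b2, b4])).cast rfl (by simp [den_revL])
        (by simp [den_revL]) (den_revL r _).symm (den_revL r _).symm
    · exact core_spec r e5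
  exact (key.ctx _ _ _ _ (b1.trans b3.symm)).cast rfl (by rw [a1, a2]) (by rw [a3, a4])
    (by simp only [den_append]) (by simp only [den_append])

def exe : List Op → List Sg → List Sg → Option (List Sg × List Sg)
  | [], X, Y => some (X, Y)
  | p :: l, X, Y => (step p X Y).bind fun o => exe l o.1 o.2

theorem exe_realize : True := by have := @exe.eq_def; trivial

/-- coefficients of the total cost, a quadratic polynomial in the parameter -/
def tot : List Op → ℕ × ℕ × ℕ
  | [] => (0, 0, 0)
  | p :: l => (p.a.1 * (cof p.k p.a p.b).1 + (tot l).1,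
      p.a.1 * (cof p.k p.a p.b).2 + p.a.2 * (cof p.k p.a p.b).1 + (tot l).2.1,
      p.a.2 * (cof p.k p.a p.b).2 + (tot l).2.2)

theorem tot_realize : True := by have := @tot.eq_def; trivial

lemma exe_spec (r : ℕ) (l : List Op) : ∀ (X Y : List Sg) (o : List Sg × List Sg),
    exe l X Y = some o → Rch ((tot l).1 + (tot l).2.1 * r + (tot l).2.2 * (r * r))
      (den r X) (den r Y) (den r o.1) (den r o.2) := by
  induction l with
  | nil => intro X Y o h; cases h; exact (Rch.refl _ _).cast (by simp [tot]) rfl rfl rfl rfl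
  | cons p l ih =>
    intro X Y o h
    obtain ⟨z, e, h⟩ := Option.bind_eq_some_iff.1 h
    exact ((step_spec r e).trans (ih _ _ _ h)).cast (by simp only [tot, av]; ring) rfl rfl rfl rfl

def chk (n : Af) (c : ℕ × ℕ × ℕ) (l : List Op) : Bool :=
  match exe l [(n, [(1, 0, 2)])] [(n, [(2, 0, 2)])] with
  | some o => eqv o.1 [(n, [(2 * n.1, 2 * n.2, -2)])] &&
      eqv o.2 [(n, [(2 * n.1 - 1, 2 * n.2, -2)])] && tot l == c
  | none => false

theorem good_of_chk {n : Af} {c : ℕ × ℕ × ℕ} {l : List Op} (h : chk n c l = true) (r : ℕ) :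
    Good (2 * (n.1 + n.2 * r)) (c.1 + c.2.1 * r + c.2.2 * (r * r)) := by
  unfold chk at h
  split at h
  · rename_i o e
    simp only [Bool.and_eq_true, beq_iff_eq] at h
    have h1 := exe_spec r l _ _ _ e
    rw [eqv_spec r h.1.1, eqv_spec r h.1.2, h.2] at h1
    simp only [den, sbk, List.map_cons, List.map_nil, fl_single, List.append_nil] at h1
    refine good_of_rch (h1.cast rfl ?_ ?_ ?_ ?_) <;>
      exact List.map_congr_left fun i _ => by simp only [ev]; push_cast; ring
  · cases h

end Pool.Agent.P.MP_894816_co
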