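import Pool.Agent.P.MP_894816_co.Rch

namespace Pool.Agent.P.MP_894816_co

/-- concatenation of the blocks `f 0, ..., f (n-1)` -/
def fl (f : ℕ → List ℤ) : ℕ → List ℤ
  | 0 => []
  | n + 1 => fl f n ++ f n

theorem fl_realize : True := by have := @fl.eq_def; trivial

lemma fl_congr {f g : ℕ → List ℤ} {n : ℕ} (h : ∀ i < n, f i = g i) : fl f n = fl g n := by
  induction n with
  | zero => rfl
  | succ n ih => rw [fl, fl, ih fun i hi => h i (by omega), h n (by omega)]

lemma fl_succ' (f : ℕ → List ℤ) (n : ℕ) : fl f (n + 1) = f 0 ++ fl (fun i => f (i + 1)) n := by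
  induction n with
  | zero => simp [fl]
  | succ n ih => rw [fl, ih, fl, List.append_assoc]

lemma fl_add (f : ℕ → List ℤ) (a b : ℕ) : fl f (a + b) = fl f a ++ fl (fun i => f (a + i)) b := by
  induction b with
  | zero => simp [fl]
  | succ b ih => rw [← add_assoc, fl, ih, fl, List.append_assoc]

lemma fl_rot (g : ℕ → ℤ) (f : ℕ → List ℤ) (n : ℕ) :
    fl (fun i => g i :: f i) (n + 1) = g 0 :: (fl (fun i => f i ++ [g (i + 1)]) n ++ f n) := by
  induction n with
  | zero => simp [fl]
  | succ n ih => rw [fl, ih, fl]; simp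

lemma fl_dbl (f : ℕ → List ℤ) (n : ℕ) :
    fl f (2 * n) = fl (fun i => f (2 * i) ++ f (2 * i + 1)) n := by
  induction n with
  | zero => rfl
  | succ n ih => rw [show 2 * (n + 1) = 2 * n + 1 + 1 by ring, fl, fl, ih, fl, List.append_assoc]

lemma fl_rev (f : ℕ → List ℤ) (n : ℕ) :
    (fl f n).reverse = fl (fun i => (f (n - 1 - i)).reverse) n := by
  induction n with
  | zero => rfl
  | succ n ih =>
    rw [fl, List.reverse_append, ih, fl_succ']
    congr 1
    exact fl_congr fun i _ => by rw [show n + 1 - 1 - (i + 1) = n - 1 - i by omega]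

lemma fl_len {f : ℕ → List ℤ} {p : ℕ} (h : ∀ i, (f i).length = p) (n : ℕ) :
    (fl f n).length = p * n := by
  induction n with
  | zero => rfl
  | succ n ih => rw [fl, List.length_append, ih, h]; ring

lemma il_append {α : Type} (A : List α) : ∀ (B C D : List α), A.length = B.length →
    il (A ++ C) (B ++ D) = il A B ++ il C D := by
  induction A with
  | nil => intro B C D h; obtain rfl := List.length_eq_zero_iff.1 h.symm; simp [il]
  | cons a A ih =>
    intro B C D h
    obtain _ | ⟨b, B⟩ := B
    · simp at h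
    simp [il, ih B C D (by simpa using h)]

lemma il_map {α β : Type} (f : α → β) (A : List α) : ∀ B : List α,
    (il A B).map f = il (A.map f) (B.map f) := by
  induction A with
  | nil => intro B; simp [il]
  | cons a A ih => intro B; cases B <;> simp [il, ih]

lemma fl_il {f g : ℕ → List ℤ} {p : ℕ} (hf : ∀ i, (f i).length = p) (hg : ∀ i, (g i).length = p)
    (n : ℕ) : il (fl f n) (fl g n) = fl (fun i => il (f i) (g i)) n := by
  induction n with
  | zero => simp [fl, il]
  | succ n ih => rw [fl, fl, fl, il_append _ _ _ _ (by rw [fl_len hf, fl_len hg]), ih]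

lemma fl_single (g : ℕ → ℤ) (n : ℕ) : fl (fun i => [g i]) n = (List.range n).map g := by
  induction n with
  | zero => rfl
  | succ n ih => rw [fl, ih, List.range_succ, List.map_append]; rfl

/-! ### symbolic rows -/

/-- natural number affine in the parameter -/
abbrev Af : Type := ℕ × ℕ
/-- progression: constant, coefficient of the parameter, step -/
abbrev El : Type := ℤ × ℤ × ℤ
/-- a number of periods of several interleaved progressions -/
abbrev Sg : Type := Af × List El

def av (r : ℕ) (a : Af) : ℕ := a.1 + a.2 * r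
def ev (r i : ℕ) (e : El) : ℤ := e.1 + e.2.1 * r + i * e.2.2
def sbk (r : ℕ) (es : List El) (n : ℕ) : List ℤ := fl (fun i => es.map (ev r i)) n
def den (r : ℕ) : List Sg → List ℤ
  | [] => []
  | s :: l => sbk r s.2 (av r s.1) ++ den r l

theorem den_realize : True := by have := @den.eq_def; trivial

lemma den_append (r : ℕ) (A B : List Sg) : den r (A ++ B) = den r A ++ den r B := by
  induction A with
  | nil => rfl
  | cons s A ih => simp [den, ih]

lemma sbk_len (r : ℕ) (es : List El) (n : ℕ) : (sbk r es n).length = es.length * n :=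
  fl_len (fun _ => by simp) n

lemma sbk_one (r : ℕ) (es : List El) : sbk r es 1 = es.map (ev r 0) := by simp [sbk, fl]

def sh (q : Af) (es : List El) : List El :=
  es.map fun e => (e.1 + q.1 * e.2.2, e.2.1 + q.2 * e.2.2, e.2.2)

lemma sh_ev (r i : ℕ) (q : Af) (es : List El) :
    (sh q es).map (ev r i) = es.map (ev r (av r q + i)) := by
  rw [sh, List.map_map]
  exact List.map_congr_left fun e _ => by simp only [Function.comp, ev, av]; push_cast; ring

lemma sbk_add (r : ℕ) (q : Af) (es : List El) (m : ℕ) :
    sbk r es (av r q + m) = sbk r es (av r q) ++ sbk r (sh q es) m := by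
  simp only [sbk, fl_add, sh_ev]

lemma sbk_split (r : ℕ) {q n : Af} (es : List El) (h1 : q.1 ≤ n.1) (h2 : q.2 ≤ n.2) :
    sbk r es (av r n) = sbk r es (av r q) ++ sbk r (sh q es) (av r (n.1 - q.1, n.2 - q.2)) := by
  rw [← sbk_add]
  congr 1
  obtain ⟨a, ha⟩ := Nat.exists_eq_add_of_le h1
  obtain ⟨b, hb⟩ := Nat.exists_eq_add_of_le h2
  simp only [av, ha, hb, Nat.add_sub_cancel_left]; ring

def lenL : List Sg → Af
  | [] => (0, 0)
  | s :: l => (s.2.length * s.1.1 + (lenL l).1, s.2.length * s.1.2 + (lenL l).2)

theorem lenL_realize : True := by have := @lenL.eq_def; trivial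

lemma den_len (r : ℕ) (l : List Sg) : (den r l).length = av r (lenL l) := by
  induction l with
  | nil => simp [den, lenL, av]
  | cons s l ih => rw [den, List.length_append, sbk_len, ih]; simp only [lenL, av]; ring

def emp (s : Sg) : Bool := s.1 == (0, 0) || s.2.isEmpty

lemma sbk_emp (r : ℕ) {s : Sg} (h : emp s = true) : sbk r s.2 (av r s.1) = [] := by
  rw [← List.length_eq_zero_iff, sbk_len]
  simp only [emp, Bool.or_eq_true, beq_iff_eq, List.isEmpty_iff] at h
  rcases h with h | h <;> simp [h, av]

def cl (l : List Sg) : List Sg := l.filter fun s => !emp s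

lemma den_cl (r : ℕ) (l : List Sg) : den r (cl l) = den r l := by
  induction l with
  | nil => rfl
  | cons s l ih =>
    rw [cl, List.filter_cons]
    cases h : emp s
    · simp only [Bool.not_false, if_true, den]; exact congrArg _ ih
    · simp only [Bool.not_true, Bool.false_eq_true, if_false, den, sbk_emp r h]; exact ih

def revL (l : List Sg) : List Sg :=
  (l.map fun s => (s.1, s.2.reverse.map fun e =>
    (e.1 + ((s.1.1 : ℤ) - 1) * e.2.2, e.2.1 + s.1.2 * e.2.2, -e.2.2))).reverse

lemma den_revL (r : ℕ) (l : List Sg) : den r (revL l) = (den r l).reverse := by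
  induction l with
  | nil => rfl
  | cons s l ih =>
    rw [revL, List.map_cons, List.reverse_cons, den_append, den.eq_2 r s, List.reverse_append,
      ← ih]
    congr 1
    simp only [den, List.append_nil, sbk, fl_rev]
    refine fl_congr fun i hi => ?_
    rw [List.map_map, ← List.map_reverse]
    refine List.map_congr_left fun e _ => ?_
    have : ((av r s.1 - 1 - i : ℕ) : ℤ) = s.1.1 + s.1.2 * r - 1 - i := by
      rw [av] at hi ⊢; push_cast [Nat.sub_sub, Nat.cast_sub (show 1 + i ≤ s.1.1 + s.1.2 * r by omega)]
      ring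
    simp only [Function.comp, ev, this]; ring

/-- cut a symbolic row after `k` entries -/
def splitL : List Sg → Af → Option (List Sg × List Sg)
  | [], k => if k = (0, 0) then some ([], []) else none
  | s :: A, k =>
    if s.2.length * s.1.1 ≤ k.1 ∧ s.2.length * s.1.2 ≤ k.2 then
      (splitL A (k.1 - s.2.length * s.1.1, k.2 - s.2.length * s.1.2)).map
        fun ab => (s :: ab.1, ab.2)
    else
      let q : Af := (k.1 / s.2.length, k.2 / s.2.length)
      if q.1 ≤ s.1.1 ∧ q.2 ≤ s.1.2 ∧ k.2 % s.2.length = 0 then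
        if k.1 % s.2.length = 0 then some ([(q, s.2)], ((s.1.1 - q.1, s.1.2 - q.2), sh q s.2) :: A)
        else if q.1 < s.1.1 then
          some ([(q, s.2), ((1, 0), (sh q s.2).take (k.1 % s.2.length))],
            ((1, 0), (sh q s.2).drop (k.1 % s.2.length)) ::
              ((s.1.1 - q.1 - 1, s.1.2 - q.2 - 0), sh (1, 0) (sh q s.2)) :: A)
        else none
      else none

theorem splitL_realize : True := by have := @splitL.eq_def; trivial

lemma splitL_den (r : ℕ) (l : List Sg) : ∀ (k : Af) (a b : List Sg), splitL l k = some (a, b) →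
    den r l = den r a ++ den r b := by
  induction l with
  | nil =>
    intro k a b h
    simp only [splitL] at h
    split_ifs at h
    cases h; rfl
  | cons s A ih =>
    intro k a b h
    simp only [splitL] at h
    split_ifs at h with h1 h2 h3 h4
    · obtain ⟨⟨a', b'⟩, e, h⟩ := Option.map_eq_some_iff.1 h
      cases h
      rw [den, den, ih _ _ _ e, List.append_assoc]
    · cases h
      simp only [den, List.append_nil]
      rw [sbk_split r s.2 (q := (k.1 / s.2.length, k.2 / s.2.length)) h2.1 h2.2.1,
        List.append_assoc]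
    · cases h
      simp only [den, List.append_nil]
      rw [sbk_split r s.2 (q := (k.1 / s.2.length, k.2 / s.2.length)) h2.1 h2.2.1,
        sbk_split r (sh _ s.2) (q := (1, 0)) (by simp only; omega) (Nat.zero_le _)]
      simp only [av, zero_mul, add_zero, sbk_one, List.append_assoc]
      rw [← List.append_assoc (List.map _ (List.take _ _)), ← List.map_append,
        List.take_append_drop]

/-- cut with the length of the first part checked -/
def cut (l : List Sg) (k : Af) : Option (List Sg × List Sg) :=
  (splitL l k).bind fun ab => if lenL ab.1 = k then some (cl ab.1, cl ab.2) else none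

lemma cut_spec (r : ℕ) {l : List Sg} {k : Af} {x : List Sg × List Sg} (h : cut l k = some x) :
    den r l = den r x.1 ++ den r x.2 ∧ (den r x.1).length = av r k := by
  obtain ⟨⟨a, b⟩, e, h⟩ := Option.bind_eq_some_iff.1 h
  split_ifs at h with h1
  cases h
  rw [den_cl, den_cl, den_len, h1]
  exact ⟨splitL_den r _ _ _ _ e, rfl⟩

def dblS (m : Af) (s : Sg) : List Sg :=
  let h : Af := if 2 * m.1 ≤ s.1.1 ∧ 2 * m.2 ≤ s.1.2 then m else (s.1.1 / 2, s.1.2 / 2)
  [(h, (s.2 ++ sh (1, 0) s.2).map fun e => (e.1, e.2.1, 2 * e.2.2)),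
    ((s.1.1 - 2 * h.1, s.1.2 - 2 * h.2), sh (2 * h.1, 2 * h.2) s.2)]

lemma den_dblS (r : ℕ) (m : Af) (s : Sg) (A : List Sg) :
    den r (dblS m s ++ A) = den r (s :: A) := by
  unfold dblS
  generalize hh : (if 2 * m.1 ≤ s.1.1 ∧ 2 * m.2 ≤ s.1.2 then m else (s.1.1 / 2, s.1.2 / 2)) = h
  have h1 : 2 * h.1 ≤ s.1.1 ∧ 2 * h.2 ≤ s.1.2 := by
    rw [← hh]; split_ifs with c
    · exact c
    · simp only; omega
  simp only [List.cons_append, List.nil_append, den]
  rw [sbk_split r s.2 (n := s.1) (q := (2 * h.1, 2 * h.2)) h1.1 h1.2, List.append_assoc]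
  congr 1
  rw [show av r (2 * h.1, 2 * h.2) = 2 * av r h by simp only [av]; ring, sbk, sbk, fl_dbl]
  refine fl_congr fun i _ => ?_
  have e : ∀ l : List El, (l.map fun e => (e.1, e.2.1, 2 * e.2.2)).map (ev r i) =
      l.map (ev r (2 * i)) := fun l => by
    rw [List.map_map]
    exact List.map_congr_left fun e _ => by simp only [Function.comp, ev]; push_cast; ring
  rw [e, List.map_append, sh_ev, show av r (1, 0) + 2 * i = 2 * i + 1 by simp [av, add_comm]]

def peel : Sg → List Sg
  | (n, e :: es) =>
    if 1 ≤ n.1 then [((1, 0), [e]), ((n.1 - 1, n.2), es ++ sh (1, 0) [e]),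
      ((1, 0), sh (n.1 - 1, n.2) es)] else [(n, e :: es)]
  | s => [s]

lemma den_peel (r : ℕ) (s : Sg) (A : List Sg) : den r (peel s ++ A) = den r (s :: A) := by
  obtain ⟨n, _ | ⟨e, es⟩⟩ := s
  · rfl
  simp only [peel]
  split_ifs with h
  · have e1 : av r n = av r (n.1 - 1, n.2) + 1 := by simp only [av]; omega
    have e2 : av r (1, 0) = 1 := by simp [av]
    simp only [List.cons_append, List.nil_append, den, e2, sbk_one]
    rw [e1]
    simp only [sbk, List.map_cons, fl_rot, List.map_append, sh_ev, e2, add_comm 1, List.map_nil,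
      add_zero, List.cons_append, List.nil_append, List.append_assoc]
  · rfl

/-- bring two symbolic rows to a common shape -/
def align : ℕ → List Sg → List Sg → Option (List (Af × List El × List El))
  | 0, _, _ => none
  | _ + 1, [], [] => some []
  | f + 1, s :: A, [] => if emp s then align f A [] else none
  | f + 1, [], t :: B => if emp t then align f [] B else none
  | f + 1, s :: A, t :: B =>
    if emp s then align f A (t :: B) else if emp t then align f (s :: A) B
    else if s.2.length = t.2.length then
      if s.1.1 ≤ t.1.1 ∧ s.1.2 ≤ t.1.2 then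
        (align f A (((t.1.1 - s.1.1, t.1.2 - s.1.2), sh s.1 t.2) :: B)).map ((s.1, s.2, t.2) :: ·)
      else if t.1.1 ≤ s.1.1 ∧ t.1.2 ≤ s.1.2 then
        (align f (((s.1.1 - t.1.1, s.1.2 - t.1.2), sh t.1 s.2) :: A) B).map ((t.1, s.2, t.2) :: ·)
      else none
    else if s.1.2 ≠ 0 ∧ t.1.2 ≠ 0 then
      if s.2.length < t.2.length then align f (dblS t.1 s ++ A) (t :: B)
      else align f (s :: A) (dblS s.1 t ++ B)
    else if 1 < s.2.length then align f (peel s ++ A) (t :: B) else align f (s :: A) (peel t ++ B)

theorem align_realize : True := by have := @align.eq_def; trivial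

lemma align_spec (r f : ℕ) : ∀ (A B : List Sg) (L : List (Af × List El × List El)),
    align f A B = some L → den r A = den r (L.map fun x => (x.1, x.2.1)) ∧
      den r B = den r (L.map fun x => (x.1, x.2.2)) ∧ ∀ x ∈ L, x.2.1.length = x.2.2.length := by
  induction f with
  | zero => intro A B L h; simp [align] at h
  | succ f ih =>
    intro A B L h
    obtain _ | ⟨s, A⟩ := A <;> obtain _ | ⟨t, B⟩ := B <;> simp only [align] at h
    · cases h; simp [den]
    · split_ifs at h with h1
      rw [den, den, sbk_emp r h1]; exact ih _ _ _ h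
    · split_ifs at h with h1
      rw [den, den, sbk_emp r h1]; exact ih _ _ _ h
    split_ifs at h with h1 h2 h3 h4 h5 h6 h7 h8
    · rw [den, sbk_emp r h1]; exact ih _ _ _ h
    · rw [den.eq_2 r t, sbk_emp r h2]; exact ih _ _ _ h
    · obtain ⟨L', e, rfl⟩ := Option.map_eq_some_iff.1 h
      obtain ⟨i1, i2, i3⟩ := ih _ _ _ e
      refine ⟨by simp only [List.map_cons, den, i1], ?_, by simpa [h3] using i3⟩
      simp only [List.map_cons, den, ← i2]
      rw [sbk_split r t.2 h4.1 h4.2, List.append_assoc]
    · obtain ⟨L', e, rfl⟩ := Option.map_eq_some_iff.1 h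
      obtain ⟨i1, i2, i3⟩ := ih _ _ _ e
      refine ⟨?_, by simp only [List.map_cons, den, i2], by simpa [h3] using i3⟩
      simp only [List.map_cons, den, ← i1]
      rw [sbk_split r s.2 h5.1 h5.2, List.append_assoc]
    · rw [← den_dblS r t.1]; exact ih _ _ _ h
    · rw [← den_dblS r s.1 t]; exact ih _ _ _ h
    · rw [← den_peel]; exact ih _ _ _ h
    · rw [← den_peel r t]; exact ih _ _ _ h

def ilL (A B : List Sg) : Option (List Sg) :=
  (align 2000 A B).map fun L => L.map fun x => (x.1, il x.2.1 x.2.2)

lemma ilL_spec (r : ℕ) {A B C : List Sg} (h : ilL A B = some C) :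
    den r C = il (den r A) (den r B) := by
  obtain ⟨L, e, rfl⟩ := Option.map_eq_some_iff.1 h
  obtain ⟨i1, i2, i3⟩ := align_spec r _ _ _ _ e
  rw [i1, i2]
  clear i1 i2 e h
  induction L with
  | nil => simp [den, il]
  | cons x L ih =>
    have := i3 x List.mem_cons_self
    simp only [List.map_cons, den]
    rw [il_append _ _ _ _ (by rw [sbk_len, sbk_len, this]),
      ih fun y hy => i3 y (List.mem_cons_of_mem _ hy), sbk, sbk, sbk,
      fl_il (p := x.2.2.length) (by simp [this]) (by simp)]
    simp only [il_map]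

def eqv (A B : List Sg) : Bool :=
  match align 2000 A B with
  | some L => L.all fun x => x.2.1 == x.2.2 ||
      (x.1 == (1, 0) && (x.2.1.map fun e => (e.1, e.2.1)) == x.2.2.map fun e => (e.1, e.2.1))
  | none => false

lemma eqv_spec (r : ℕ) {A B : List Sg} (h : eqv A B = true) : den r A = den r B := by
  unfold eqv at h
  split at h
  · rename_i L e
    obtain ⟨i1, i2, -⟩ := align_spec r _ _ _ _ e
    rw [i1, i2]
    clear i1 i2 e
    induction L with
    | nil => rfl
    | cons x L ih =>
      simp only [List.all_cons, Bool.and_eq_true, Bool.or_eq_true, beq_iff_eq] at h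
      simp only [List.map_cons, den]
      rw [ih (by simpa using h.2)]
      congr 1
      rcases h.1 with h1 | ⟨h1, h2⟩
      · rw [h1]
      · have e : ∀ l : List El, l.map (ev r 0) =
            (l.map fun e => (e.1, e.2.1)).map fun p : ℤ × ℤ => p.1 + p.2 * (r : ℤ) := fun l => by
          rw [List.map_map]; exact List.map_congr_left fun e _ => by simp [ev]
        rw [h1, show av r (1, 0) = 1 by simp [av], sbk_one, sbk_one, e, e, h2]
  · cases h

end Pool.Agent.P.MP_894816_co
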