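import Pool.Agent.P.MP_894816_co.Glue

namespace Pool.Agent.P.MP_894816_co

open Equiv

/-- letters `1, 3, ..., 2m-1` -/
def lay : ℕ → List ℕ
  | 0 => []
  | m + 1 => (2 * m + 1) :: lay m

lemma lay_mem {m k : ℕ} (h : k ∈ lay m) : k % 2 = 1 ∧ k < 2 * m := by
  induction m with
  | zero => simp [lay] at h
  | succ m ih =>
    rcases List.mem_cons.1 h with h | h
    · omega
    · have := ih h; omega

lemma cost_lay (m : ℕ) : cost (lay m) = 0 := by
  induction m with
  | zero => rfl
  | succ m ih => rw [lay, cost_cons, ih]; split_ifs <;> omega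

lemma pr_lay (m p : ℕ) : pr (lay m) p =
    if 1 ≤ p ∧ p ≤ 2 * m then (if p % 2 = 1 then p + 1 else p - 1) else p := by
  induction m with
  | zero => simp only [lay, pr_nil, Perm.one_apply]; split_ifs <;> omega
  | succ m ih => rw [lay, pr_cons, Perm.mul_apply, ih, s_apply]; split_ifs <;> omega

/-- `m` consecutive swaps between neighbouring bins, starting at level `a` and going up -/
def run (a : ℕ) : ℕ → List ℕ
  | 0 => []
  | m + 1 => run a m ++ [a + 2 * m, a + 2 * m - 1, a + 2 * m + 1]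

lemma run_mem {a m k : ℕ} (h : k ∈ run a m) : a ≤ k + 1 ∧ k + 1 ≤ a + 2 * m := by
  induction m with
  | zero => simp [run] at h
  | succ m ih =>
    rcases List.mem_append.1 h with h | h
    · have := ih h; omega
    · simp only [List.mem_cons, List.not_mem_nil, or_false] at h; omega

lemma cost_run {a : ℕ} (ha : a % 2 = 0) (h2 : 2 ≤ a) (m : ℕ) : cost (run a m) = m := by
  induction m with
  | zero => rfl
  | succ m ih =>
    rw [run, cost_append, ih, cost_cons, cost_cons, cost_cons, cost_nil]; split_ifs <;> omega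

lemma pr_gm {j : ℕ} (hj : 2 ≤ j) (p : ℕ) : pr [j, j - 1, j + 1] p =
    if p + 1 = j then j + 1 else if p = j then j - 1 else if p = j + 1 then j + 2
    else if p = j + 2 then j else p := by
  simp only [pr_cons, pr_nil, mul_one, Perm.mul_apply]
  have h1 := s_apply (j + 1) p
  generalize s (j + 1) p = p1 at h1 ⊢
  have h2 := s_apply (j - 1) p1
  generalize s (j - 1) p1 = p2 at h2 ⊢
  rw [s_apply]
  split_ifs at h1 h2 ⊢ <;> omega

lemma pr_run {a : ℕ} (ha : a % 2 = 0) (h2 : 2 ≤ a) (m : ℕ) : ∀ p, pr (run a (m + 1)) p =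
    if p = a then a - 1 else if p = a + 2 * m + 2 then a else if p = a + 2 * m + 1 then p + 1
    else if a ≤ p + 1 ∧ p ≤ a + 2 * m ∧ p % 2 = 1 then p + 2 else p := by
  induction m with
  | zero =>
    intro p
    rw [run, run, List.nil_append, pr_gm (by omega)]
    split_ifs <;> omega
  | succ m ih =>
    intro p
    rw [run, pr_append, Perm.mul_apply, ih]
    have h1 := pr_gm (j := a + 2 * (m + 1)) (by omega) p
    generalize pr [a + 2 * (m + 1), a + 2 * (m + 1) - 1, a + 2 * (m + 1) + 1] p = p1 at h1 ⊢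
    split_ifs at h1 ⊢ <;> omega

/-- the short runs in the thin layers -/
def thin (a : ℕ) : ℕ → List ℕ
  | 0 => []
  | i + 1 => run (a + 10 * i) 3 ++ thin a i

lemma thin_mem {a i k : ℕ} (h : k ∈ thin a i) : a ≤ k + 1 ∧ k + 5 ≤ a + 10 * i := by
  induction i with
  | zero => simp [thin] at h
  | succ i ih =>
    rcases List.mem_append.1 h with h | h
    · have := run_mem h; omega
    · have := ih h; omega

lemma cost_thin {a : ℕ} (ha : a % 2 = 0) (h2 : 2 ≤ a) (i : ℕ) : cost (thin a i) = 3 * i := by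
  induction i with
  | zero => rfl
  | succ i ih => rw [thin, cost_append, ih, cost_run (by omega) (by omega)]; omega

lemma pr_thin {a : ℕ} (ha : a % 2 = 0) (h2 : 2 ≤ a) (i p : ℕ) : pr (thin a i) p =
    if a ≤ p + 1 ∧ p + 1 < a + 10 * i then
      (if (p + 1 - a) % 10 = 1 then p - 1 else if (p + 1 - a) % 10 = 7 then p - 6
       else if (p + 1 - a) % 10 = 6 then p + 1
       else if (p + 1 - a) % 10 ≤ 4 ∧ p % 2 = 1 then p + 2 else p) else p := by
  induction i with
  | zero => simp only [thin, pr_nil, Perm.one_apply]; split_ifs <;> omega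
  | succ i ih =>
    rw [thin, pr_append, Perm.mul_apply]
    generalize pr (thin a i) p = p1 at ih ⊢
    rw [pr_run (by omega) (by omega) 2]
    split_ifs at ih ⊢ <;> omega

/-- the block of the tripling construction with `2k+1` central wires -/
def blk (t k : ℕ) : List ℕ :=
  lay (6 * t + k - 1) ++ (thin (6 * t - 4 * k) k ++ run (6 * t + 6 * k) (2 * t - 2 * k))

lemma inb_blk {t k : ℕ} (h : k + 2 ≤ t) : Inb (12 * t + 2 * k - 1) (blk t k) := by
  refine inb_append.2 ⟨fun j hj => ?_, inb_append.2 ⟨fun j hj => ?_, fun j hj => ?_⟩⟩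
  · have := lay_mem hj; omega
  · have := thin_mem hj; omega
  · have := run_mem hj; omega

lemma cost_blk {t k : ℕ} (h : k + 2 ≤ t) : cost (blk t k) = 2 * t + k := by
  rw [blk, cost_append, cost_append, cost_lay, cost_thin (by omega) (by omega),
    cost_run (by omega) (by omega)]
  omega

/-- one step of the dynamics: block followed by the mirror -/
def ph (t k : ℕ) : Perm ℕ := rv (12 * t + 2 * k - 1) * pr (blk t k)

lemma ph_of {t k : ℕ} (h : k + 2 ≤ t) (p p1 p2 p3 : ℕ)
    (h1 : (if p = 6 * t + 6 * k then 6 * t + 6 * k - 1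
      else if p = 10 * t + 2 * k then 6 * t + 6 * k else if p + 1 = 10 * t + 2 * k then p + 1
      else if 6 * t + 6 * k ≤ p + 1 ∧ p + 2 ≤ 10 * t + 2 * k ∧ p % 2 = 1 then p + 2 else p) = p1)
    (h2 : (if 6 * t - 4 * k ≤ p1 + 1 ∧ p1 + 1 < 6 * t + 6 * k then
      (if (p1 + 1 - (6 * t - 4 * k)) % 10 = 1 then p1 - 1
       else if (p1 + 1 - (6 * t - 4 * k)) % 10 = 7 then p1 - 6
       else if (p1 + 1 - (6 * t - 4 * k)) % 10 = 6 then p1 + 1
       else if (p1 + 1 - (6 * t - 4 * k)) % 10 ≤ 4 ∧ p1 % 2 = 1 then p1 + 2 else p1) else p1) = p2)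
    (h3 : 1 ≤ p2 ∧ p2 ≤ 12 * t + 2 * k - 1 ∧ (p2 = 12 * t + 2 * k - 1 → p3 = 1) ∧
      (p2 < 12 * t + 2 * k - 1 → p2 % 2 = 1 → p3 + p2 + 1 = 12 * t + 2 * k) ∧
      (p2 % 2 = 0 → p3 + p2 = 12 * t + 2 * k + 1)) : ph t k p = p3 := by
  obtain ⟨m, hm⟩ : ∃ m, 2 * t - 2 * k = m + 1 := ⟨2 * t - 2 * k - 1, by omega⟩
  have e : ph t k p = rv (12 * t + 2 * k - 1) (pr (lay (6 * t + k - 1))
      (pr (thin (6 * t - 4 * k) k) (pr (run (6 * t + 6 * k) (m + 1)) p))) := by
    simp [ph, blk, hm]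
  have e1 : pr (run (6 * t + 6 * k) (m + 1)) p = p1 := by
    rw [pr_run (by omega) (by omega), ← h1]; clear h1 h2 h3 e; split_ifs <;> omega
  have e2 : pr (thin (6 * t - 4 * k) k) p1 = p2 := by
    rw [pr_thin (by omega) (by omega), ← h2,
      show 6 * t - 4 * k + 10 * k = 6 * t + 6 * k by omega]
  rw [e, e1, e2]
  have h4 := pr_lay (6 * t + k - 1) p2
  generalize pr (lay (6 * t + k - 1)) p2 = p4 at h4 ⊢
  rw [rv_apply]; clear h1 h2 e e1 e2
  split_ifs at h4 ⊢ <;> omega

end Pool.Agent.P.MP_894816_co
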