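import Pool.Agent.P.MP_894816_co.Orbit
import Pool.Agent.P.MP_894816_co.Bridge

namespace Pool.Agent.P.MP_894816_co

lemma good_log (n : ℕ) (hn : 2 ≤ n) :
    ∃ c, Good (2 * n) c ∧ 3 * c ≤ n * (2 * n - 1) + 100000 * Nat.log 2 n := by
  induction n using Nat.strong_induction_on with
  | _ n ih =>
    by_cases hs : n < 89
    · refine ⟨_, good_trivial (2 * n), ?_⟩
      have : 1 ≤ Nat.log 2 n := Nat.log_pos (by norm_num) hn
      nlinarith [Nat.zero_le (n * (2 * n - 1))]
    · obtain ⟨t, k, hk, rfl⟩ : ∃ t k, k ≤ 8 ∧ n = 9 * (t + 10) - 1 + k :=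
        ⟨(n + 1) / 9 - 10, (n + 1) % 9, by omega, by omega⟩
      obtain ⟨c, h1, h2⟩ := ih (3 * (t + 10)) (by omega) (by omega)
      have h3 := good_triple (t := t + 10) (k := k) (by omega) (c := c)
        (by rwa [show 2 * (3 * (t + 10)) = 6 * (t + 10) by ring] at h1)
      refine ⟨_, by rwa [show 2 * (9 * (t + 10) - 1 + k) = 18 * (t + 10) + 2 * k - 2 by omega], ?_⟩
      have h4 : Nat.log 2 (3 * (t + 10)) + 1 ≤ Nat.log 2 (9 * (t + 10) - 1 + k) := by
        rw [← Nat.log_mul_base (by norm_num) (by omega)]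
        exact Nat.log_mono_right (by omega)
      rw [show 2 * (3 * (t + 10)) - 1 = 6 * t + 59 by omega] at h2
      rw [show 6 * (t + 10) - 1 = 6 * t + 59 by omega, show 6 * (t + 10) + k - 1 = 6 * t + 59 + k by
        omega, show 2 * (9 * (t + 10) - 1 + k) - 1 = 18 * t + 177 + 2 * k by omega]
      generalize Nat.log 2 (9 * (t + 10) - 1 + k) = L at h4 ⊢
      rw [show 9 * (t + 10) - 1 + k = 9 * t + 89 + k by omega]
      nlinarith

end Pool.Agent.P.MP_894816_co
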