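import Pool.Agent.P.MP_894816_co.Defs

namespace Pool.Agent.P.MP_894816_co

open Equiv

/-- adjacent transposition of positions `k`, `k+1` -/
def s (k : ℕ) : Perm ℕ := swap k (k + 1)

lemma s_apply (k p : ℕ) : s k p = if p = k then k + 1 else if p = k + 1 then k else p := by
  unfold s; rw [swap_apply_def]

/-- the permutation of a word -/
def pr (w : List ℕ) : Perm ℕ := (w.map s).prod

@[simp] lemma pr_nil : pr [] = 1 := rfl
@[simp] lemma pr_cons (k : ℕ) (w : List ℕ) : pr (k :: w) = s k * pr w := by simp [pr]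
@[simp] lemma pr_append (v w : List ℕ) : pr (v ++ w) = pr v * pr w := by simp [pr]

/-- number of even letters -/
def cost (w : List ℕ) : ℕ := w.countP (fun k => decide (k % 2 = 0))

@[simp] lemma cost_nil : cost [] = 0 := rfl
lemma cost_cons (k : ℕ) (w : List ℕ) : cost (k :: w) = cost w + if k % 2 = 0 then 1 else 0 := by
  simp [cost, List.countP_cons]
@[simp] lemma cost_append (v w : List ℕ) : cost (v ++ w) = cost v + cost w := by simp [cost]
lemma cost_le_length (w : List ℕ) : cost w ≤ w.length := List.countP_le_length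

/-- reversal of the positions `1..N` -/
def rvf (N p : ℕ) : ℕ := if 1 ≤ p ∧ p ≤ N then N + 1 - p else p

lemma rvf_invol (N : ℕ) : Function.Involutive (rvf N) := by
  intro p; unfold rvf; split_ifs <;> omega

def rv (N : ℕ) : Perm ℕ := (rvf_invol N).toPerm

lemma rv_apply (N p : ℕ) : rv N p = if 1 ≤ p ∧ p ≤ N then N + 1 - p else p := rfl

lemma rv_mul_self (N : ℕ) : rv N * rv N = 1 := by
  ext p; exact rvf_invol N p

/-- all letters lie in `[1, N-1]` -/
def Inb (N : ℕ) (w : List ℕ) : Prop := ∀ k ∈ w, 1 ≤ k ∧ k + 1 ≤ N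

lemma inb_nil (N : ℕ) : Inb N [] := by simp [Inb]
lemma inb_cons {N k : ℕ} {w : List ℕ} : Inb N (k :: w) ↔ (1 ≤ k ∧ k + 1 ≤ N) ∧ Inb N w := by
  simp [Inb]
lemma inb_append {N : ℕ} {v w : List ℕ} : Inb N (v ++ w) ↔ Inb N v ∧ Inb N w := by
  simp only [Inb, List.mem_append]
  exact ⟨fun h => ⟨fun k hk => h k (Or.inl hk), fun k hk => h k (Or.inr hk)⟩,
    fun h k hk => hk.elim (h.1 k) (h.2 k)⟩
lemma Inb.mono {N M : ℕ} {w : List ℕ} (h : Inb N w) (hNM : N ≤ M) : Inb M w :=
  fun k hk => ⟨(h k hk).1, (h k hk).2.trans hNM⟩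

/-- reversal of `N` wires by a word with at most `c` even letters -/
def Good (N c : ℕ) : Prop := ∃ w, Inb N w ∧ pr w = rv N ∧ cost w ≤ c

lemma Good.mono {N c d : ℕ} (h : Good N c) (hcd : c ≤ d) : Good N d := by
  obtain ⟨w, h1, h2, h3⟩ := h; exact ⟨w, h1, h2, h3.trans hcd⟩

lemma pr_fix {w : List ℕ} {p : ℕ} (h : ∀ k ∈ w, p ≠ k ∧ p ≠ k + 1) : pr w p = p := by
  induction w with
  | nil => rfl
  | cons k w ih =>
    rw [pr_cons, Perm.mul_apply, ih fun j hj => h j (List.mem_cons_of_mem _ hj), s_apply]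
    have := h k List.mem_cons_self
    simp [this.1, this.2]

lemma s_comm {j k : ℕ} (h : j + 2 ≤ k) : s j * s k = s k * s j := by
  ext p; simp only [Perm.mul_apply, s_apply]; split_ifs <;> omega

lemma s_comm_pr {k : ℕ} {w : List ℕ} (h : ∀ j ∈ w, j + 2 ≤ k ∨ k + 2 ≤ j) :
    s k * pr w = pr w * s k := by
  induction w with
  | nil => simp
  | cons j w ih =>
    have h1 : s k * s j = s j * s k :=
      (h j List.mem_cons_self).elim (fun h => (s_comm h).symm) s_comm
    rw [pr_cons, ← mul_assoc, h1, mul_assoc, ih fun i hi => h i (List.mem_cons_of_mem _ hi),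
      mul_assoc]

/-- conjugating a word letter by letter -/
lemma pr_map_conj (g : Perm ℕ) (f : ℕ → ℕ) (w : List ℕ) (h : ∀ k ∈ w, g * s k = s (f k) * g) :
    g * pr w = pr (w.map f) * g := by
  induction w with
  | nil => simp
  | cons k w ih =>
    rw [List.map_cons, pr_cons, pr_cons, ← mul_assoc, h k List.mem_cons_self, mul_assoc,
      ih fun i hi => h i (List.mem_cons_of_mem _ hi), mul_assoc]

lemma rv_s {N k : ℕ} (h : 1 ≤ k ∧ k + 1 ≤ N) : rv N * s k = s (N - k) * rv N := by
  ext p; simp only [Perm.mul_apply, s_apply, rv_apply]; split_ifs <;> omega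

lemma pr_flip {N : ℕ} {w : List ℕ} (h : Inb N w) :
    pr (w.map (N - ·)) = rv N * pr w * rv N := by
  rw [pr_map_conj (rv N) (N - ·) w fun k hk => rv_s (h k hk), mul_assoc, rv_mul_self, mul_one]

lemma inb_flip {N : ℕ} {w : List ℕ} (h : Inb N w) : Inb N (w.map (N - ·)) := by
  intro k hk
  obtain ⟨j, hj, rfl⟩ := List.mem_map.1 hk
  have := h j hj; omega

lemma cost_map (f : ℕ → ℕ) (w : List ℕ) (h : ∀ k ∈ w, f k % 2 = k % 2) :
    cost (w.map f) = cost w := by
  induction w with
  | nil => rfl
  | cons k w ih =>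
    rw [List.map_cons, cost_cons, cost_cons, ih fun i hi => h i (List.mem_cons_of_mem _ hi),
      h k List.mem_cons_self]

/-! ### every permutation supported in an interval is a short word -/

/-- descending word `b-1, ..., a` -/
def dn (a : ℕ) : ℕ → List ℕ
  | 0 => []
  | m + 1 => (a + m) :: dn a m

lemma dn_mem {a m k : ℕ} (h : k ∈ dn a m) : a ≤ k ∧ k < a + m := by
  induction m with
  | zero => simp [dn] at h
  | succ m ih =>
    rcases List.mem_cons.1 h with h | h
    · omega
    · have := ih h; omega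

lemma dn_length (a m : ℕ) : (dn a m).length = m := by
  induction m with
  | zero => rfl
  | succ m ih => simp [dn, ih]

lemma pr_dn (a m p : ℕ) :
    pr (dn a m) p = if p = a then a + m else if a < p ∧ p ≤ a + m then p - 1 else p := by
  induction m with
  | zero => simp only [dn, pr_nil, Perm.one_apply]; split_ifs <;> omega
  | succ m ih => rw [dn, pr_cons, Perm.mul_apply, ih, s_apply]; split_ifs <;> omega

lemma exists_word (a : ℕ) : ∀ (m : ℕ) (g : Perm ℕ), (∀ p, p < a ∨ a + m < p → g p = p) →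
    ∃ w, pr w = g ∧ (∀ k ∈ w, a ≤ k ∧ k < a + m) ∧ w.length ≤ m * m := by
  intro m
  induction m with
  | zero =>
    intro g hg
    refine ⟨[], ?_, by simp, by simp⟩
    ext p
    by_cases hp : p = a
    · subst hp
      by_contra hne
      have h1 := hg (g p) (by simp only [pr_nil, Perm.one_apply] at hne; omega)
      exact hne (g.injective h1).symm
    · exact (hg p (by omega)).symm
  | succ m ih =>
    intro g hg
    set b := g.symm (a + (m + 1)) with hb
    have hgb : g b = a + (m + 1) := by simp [hb]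
    have hb1 : a ≤ b ∧ b ≤ a + (m + 1) := by
      by_contra hc
      have := hg b (by omega); omega
    obtain ⟨w, h1, h2, h3⟩ := ih (g * (pr (dn b (a + (m + 1) - b)))⁻¹) (by
      intro p hp
      by_cases hp' : p = a + (m + 1)
      · have : (pr (dn b (a + (m + 1) - b)))⁻¹ p = b := by
          rw [Perm.inv_eq_iff_eq, pr_dn]; simp; omega
        rw [Perm.mul_apply, this, hgb, hp']
      · have : (pr (dn b (a + (m + 1) - b)))⁻¹ p = p := by
          rw [Perm.inv_eq_iff_eq, pr_dn]; split_ifs <;> omega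
        rw [Perm.mul_apply, this]; exact hg p (by omega))
    refine ⟨w ++ dn b (a + (m + 1) - b), by rw [pr_append, h1]; simp, ?_, ?_⟩
    · intro k hk
      rcases List.mem_append.1 hk with hk | hk
      · have := h2 k hk; omega
      · have := dn_mem hk; omega
    · rw [List.length_append, dn_length]
      have : a + (m + 1) - b ≤ m + 1 := by omega
      nlinarith

lemma good_trivial (N : ℕ) : Good N (N * N) := by
  obtain ⟨w, h1, h2, h3⟩ := exists_word 1 (N - 1) (rv N) (by
    intro p hp; rw [rv_apply]; split_ifs <;> omega)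
  refine ⟨w, fun k hk => by have := h2 k hk; omega, h1, (cost_le_length w).trans (h3.trans ?_)⟩
  exact Nat.mul_le_mul (Nat.sub_le _ _) (Nat.sub_le _ _)

end Pool.Agent.P.MP_894816_co
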